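import Pool.Agent.Y924.EL.Stm

/-! EL-ENUM: the domain of the next level -/

set_option autoImplicit false

namespace Pool.Agent.R621.EL

open Pool.Agent.Y924.EL

theorem t_ENUM : S_ENUM := by
  classical
  intro K J z0 z1 M N hz hG
  obtain ⟨e, he1, he2⟩ := hG.enum
  have hinj : ∀ j k, j < N → k < N → e j = e k → j = k := by
    intro j k hj hk h
    rcases Nat.lt_trichotomy j k with h1 | h1 | h1
    · have h2 := (he2 j k hj hk).2 h1
      rw [← h] at h2
      exact absurd ((he2 j j hj hj).1 h2) (lt_irrefl _)
    · exact h1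
    · have h2 := (he2 k j hk hj).2 h1
      rw [h] at h2
      exact absurd ((he2 k k hk hk).1 h2) (lt_irrefl _)
  have hD : ∀ j, j < N → M.D (e j) := fun j hj => (he1 _).2 ⟨j, hj, rfl⟩
  -- the codes
  let φ : ℕ → K → K := fun k x =>
    if ∃ j, j < N ∧ x = e j ∧ k.testBit (N - 1 - j) = true then z1 else z0
  choose s hs using fun k => hG.comp (φ k)
  have hφ1 : ∀ k j, j < N → k.testBit (N - 1 - j) = true → φ k (e j) = z1 := by
    intro k j hj h
    simp only [φ]
    rw [if_pos ⟨j, hj, rfl, h⟩]
  have hφ0 : ∀ k j, j < N → k.testBit (N - 1 - j) = false → φ k (e j) = z0 := by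
    intro k j hj h
    simp only [φ]
    rw [if_neg]
    rintro ⟨j', hj', h1, h2⟩
    have := hinj j j' hj hj' h1
    subst this
    rw [h] at h2
    exact absurd h2 (by decide)
  have hE1 : ∀ k j, j < N → (M.E (s k) (e j) z1 ↔ k.testBit (N - 1 - j) = true) := by
    intro k j hj
    have h1 := hs k (e j) (hD j hj)
    constructor
    · intro h2
      by_contra h3
      have h3' : k.testBit (N - 1 - j) = false := by simpa using h3
      rw [hφ0 k j hj h3'] at h1
      exact hz (hG.func _ _ _ _ (hD j hj) h1 h2)
    · intro h2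
      rw [hφ1 k j hj h2] at h1
      exact h1
  have hE0 : ∀ k j, j < N → (M.E (s k) (e j) z0 ↔ k.testBit (N - 1 - j) = false) := by
    intro k j hj
    have h1 := hs k (e j) (hD j hj)
    constructor
    · intro h2
      by_contra h3
      have h3' : k.testBit (N - 1 - j) = true := by simpa using h3
      rw [hφ1 k j hj h3'] at h1
      exact hz (hG.func _ _ _ _ (hD j hj) h2 h1)
    · intro h2
      rw [hφ0 k j hj h2] at h1
      exact h1
  refine ⟨s, ?_, ?_⟩
  · intro x
    constructor
    · intro hx
      have hx' : ∀ i, M.D i → M.E x i z0 ∨ M.E x i z1 := hx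
      let f : Fin N → Bool := fun t => decide (M.E x (e (N - 1 - t.val)) z1)
      refine ⟨Nat.ofBits f, Nat.ofBits_lt_two_pow f, ?_⟩
      apply hG.ext
      intro i hi
      obtain ⟨j, hj, rfl⟩ := (he1 i).1 hi
      have hb : (Nat.ofBits f).testBit (N - 1 - j) = decide (M.E x (e j) z1) := by
        rw [Nat.testBit_ofBits_lt f (N - 1 - j) (by omega)]
        simp only [f]
        have : N - 1 - (N - 1 - j) = j := by omega
        rw [this]
      by_cases h1 : M.E x (e j) z1
      · refine ⟨z1, h1, (hE1 _ j hj).2 ?_⟩
        rw [hb]; exact decide_eq_true h1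
      · have h0 : M.E x (e j) z0 := (hx' _ hi).resolve_right h1
        refine ⟨z0, h0, (hE0 _ j hj).2 ?_⟩
        rw [hb]; exact decide_eq_false h1
    · rintro ⟨k, hk, rfl⟩
      show ∀ i, M.D i → M.E (s k) i z0 ∨ M.E (s k) i z1
      intro i hi
      obtain ⟨j, hj, rfl⟩ := (he1 i).1 hi
      rcases Bool.eq_false_or_eq_true (k.testBit (N - 1 - j)) with h | h
      · exact Or.inr ((hE1 k j hj).2 h)
      · exact Or.inl ((hE0 k j hj).2 h)
  · intro j k hj hk
    constructor
    · rintro ⟨i, hi, h0, h1, hrest⟩
      obtain ⟨u, hu, rfl⟩ := (he1 i).1 hi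
      refine Nat.lt_of_testBit (N - 1 - u) ((hE0 j u hu).1 h0) ((hE1 k u hu).1 h1) ?_
      intro t ht
      rcases Nat.lt_or_ge t N with htN | htN
      · have hu' : N - 1 - t < u := by omega
        have e1 : N - 1 - (N - 1 - t) = t := by omega
        have h2 := hrest (e (N - 1 - t)) (hD _ (by omega)) ((he2 _ _ (by omega) hu).2 hu')
        rcases h2 with ⟨h3, h4⟩ | ⟨h3, h4⟩
        · have h5 := (hE0 j _ (by omega)).1 h3
          have h6 := (hE0 k _ (by omega)).1 h4
          rw [e1] at h5 h6
          rw [h5, h6]
        · have h5 := (hE1 j _ (by omega)).1 h3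
          have h6 := (hE1 k _ (by omega)).1 h4
          rw [e1] at h5 h6
          rw [h5, h6]
      · have hp : 2 ^ N ≤ 2 ^ t := Nat.pow_le_pow_right (by norm_num) htN
        rw [Nat.testBit_lt_two_pow (lt_of_lt_of_le hj hp),
          Nat.testBit_lt_two_pow (lt_of_lt_of_le hk hp)]
    · intro hjk
      have hne : j ^^^ k ≠ 0 := by
        intro h
        rw [Nat.xor_eq_zero_iff] at h
        omega
      obtain ⟨t, ht1, ht2⟩ := Nat.exists_most_significant_bit hne
      rw [Nat.testBit_xor] at ht1
      have hrest : ∀ t', t < t' → j.testBit t' = k.testBit t' := by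
        intro t' h
        have := ht2 t' h
        rw [Nat.testBit_xor] at this
        simpa using this
      have hjt : j.testBit t = false ∧ k.testBit t = true := by
        rcases Bool.eq_false_or_eq_true (j.testBit t) with h | h
        · rcases Bool.eq_false_or_eq_true (k.testBit t) with h' | h'
          · rw [h, h'] at ht1
            exact absurd ht1 (by decide)
          · have := Nat.lt_of_testBit t h' h (fun t' h2 => (hrest t' h2).symm)
            omega
        · rcases Bool.eq_false_or_eq_true (k.testBit t) with h' | h'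
          · exact ⟨h, h'⟩
          · rw [h, h'] at ht1
            exact absurd ht1 (by decide)
      have htN : t < N := by
        by_contra hc
        have hp : 2 ^ N ≤ 2 ^ t := Nat.pow_le_pow_right (by norm_num) (by omega)
        have := Nat.testBit_lt_two_pow (lt_of_lt_of_le hk hp)
        rw [hjt.2] at this
        exact absurd this (by decide)
      have e1 : N - 1 - (N - 1 - t) = t := by omega
      refine ⟨e (N - 1 - t), hD _ (by omega), ?_, ?_, ?_⟩
      · rw [hE0 _ _ (by omega), e1]; exact hjt.1
      · rw [hE1 _ _ (by omega), e1]; exact hjt.2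
      · intro x hx hL
        obtain ⟨u, hu, rfl⟩ := (he1 x).1 hx
        have hlt := (he2 u _ hu (by omega)).1 hL
        have h3 := hrest (N - 1 - u) (by omega)
        rw [hE0 j u hu, hE0 k u hu, hE1 j u hu, hE1 k u hu, h3]
        rcases Bool.eq_false_or_eq_true (k.testBit (N - 1 - u)) with h | h
        · right; exact ⟨h, h⟩
        · left; exact ⟨h, h⟩

end Pool.Agent.R621.EL
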