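import Pool.Agent.Y972.EL.PAIR

/-! # The evaluation relation of the next level -/

set_option autoImplicit false

namespace Pool.Agent.R621.EL

open Pool.Agent.Y924.EL
open Pool.Agent.Y972.EL

section

variable {K : Type} {J : K → K → K} {z0 z1 : K} {M : Lev K} {N : ℕ} {e : ℕ → K}

/-- evaluation in the next level follows a path -/
theorem E_path (hG : Good M N) (he : Enum M N e) (hN : 1 ≤ N) (s a v : K) :
    (nextLev M J z0 z1).E s a v ↔ ∃ x : ℕ → K, x 0 = s ∧ x N = v ∧
      ∀ k, k < N → Ch M J z0 z1 a (e k) (x k) (x (k + 1)) := by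
  classical
  constructor
  · rintro ⟨w, h1, h2, h3⟩
    have hv : ∀ k, k < N → ∃ y, M.E w (e k) y := by
      intro k hk
      rcases Nat.eq_zero_or_pos k with h0 | h0
      · subst h0
        exact ⟨s, h1 _ ((fst_iff he _).2 ⟨hk, rfl⟩)⟩
      · obtain ⟨x, y, hx, hy, hc⟩ := h2 (e (k - 1)) (e k)
          ((suc_iff he _ _).2 ⟨k - 1, by omega, rfl, by rw [Nat.sub_add_cancel h0]⟩)
        exact ⟨y, hy⟩
    haveI : Nonempty K := ⟨s⟩
    choose! y hy using hv
    refine ⟨fun k => if k < N then y k else v, ?_, ?_, ?_⟩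
    · have h0 : 0 < N := hN
      simp only [if_pos h0]
      exact hG.func w (e 0) _ _ (enum_D he h0) (hy 0 h0) (h1 _ ((fst_iff he _).2 ⟨h0, rfl⟩))
    · simp
    · intro k hk
      simp only [if_pos hk]
      by_cases hk1 : k + 1 < N
      · simp only [if_pos hk1]
        obtain ⟨x', y', hx', hy', hc⟩ := h2 (e k) (e (k + 1)) ((suc_iff he _ _).2 ⟨k, hk1, rfl, rfl⟩)
        rw [hG.func w (e k) _ _ (enum_D he hk) (hy k hk) hx',
          hG.func w (e (k + 1)) _ _ (enum_D he hk1) (hy (k + 1) hk1) hy']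
        exact hc
      · simp only [if_neg hk1]
        have hl : Lst M (e k) := by
          refine ⟨enum_D he hk, ?_⟩
          rintro ⟨j, hj, hL⟩
          obtain ⟨m, hm, rfl⟩ := (he.1 _).1 hj
          have := (he.2 _ _ hk hm).1 hL
          omega
        obtain ⟨x', hx', hc⟩ := h3 _ hl
        rw [hG.func w (e k) _ _ (enum_D he hk) (hy k hk) hx']
        exact hc
  · rintro ⟨x, h0, hv, hc⟩
    obtain ⟨w, hw⟩ := exists_code hG he x
    refine ⟨w, ?_, ?_, ?_⟩
    · intro i hi
      obtain ⟨h1, rfl⟩ := (fst_iff he _).1 hi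
      rw [← h0]
      exact hw 0 h1
    · intro i j hij
      obtain ⟨k, hk, rfl, rfl⟩ := (suc_iff he _ _).1 hij
      exact ⟨x k, x (k + 1), hw k (by omega), hw (k + 1) hk, hc k (by omega)⟩
    · rintro i ⟨hi, hl⟩
      obtain ⟨k, hk, rfl⟩ := (he.1 _).1 hi
      have hkN : k + 1 = N := by
        by_contra hne
        have h1 : k + 1 < N := by omega
        exact hl ⟨e (k + 1), enum_D he h1, (he.2 _ _ hk h1).2 (Nat.lt_succ_self k)⟩
      refine ⟨x k, hw k hk, ?_⟩
      rw [← hv]
      have := hc k hk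
      rw [hkN] at this
      exact this

/-- children are unique -/
theorem ch_uniq (hJ : Inj2 J) (hz : z0 ≠ z1) (hG : Good M N) {a i x y y' : K} (hi : M.D i)
    (h : Ch M J z0 z1 a i x y) (h' : Ch M J z0 z1 a i x y') : y = y' := by
  obtain ⟨u, h⟩ := h
  obtain ⟨u', h'⟩ := h'
  rcases h with ⟨h1, h2⟩ | ⟨h1, h2⟩ <;> rcases h' with ⟨h3, h4⟩ | ⟨h3, h4⟩
  · exact (hJ _ _ _ _ (h2.trans h4.symm)).1
  · exact absurd (hG.func _ _ _ _ hi h1 h3) hz
  · exact absurd (hG.func _ _ _ _ hi h3 h1) hz
  · exact (hJ _ _ _ _ (h2.trans h4.symm)).2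

/-- evaluation is functional -/
theorem next_func (hJ : Inj2 J) (hz : z0 ≠ z1) (hN : 1 ≤ N) (hG : Good M N) (s a v v' : K)
    (h : (nextLev M J z0 z1).E s a v) (h' : (nextLev M J z0 z1).E s a v') : v = v' := by
  obtain ⟨e, he⟩ := hG.enum
  obtain ⟨x, hx0, hxN, hx⟩ := (E_path hG he hN s a v).1 h
  obtain ⟨y, hy0, hyN, hy⟩ := (E_path hG he hN s a v').1 h'
  have key : ∀ k, k ≤ N → x k = y k := by
    intro k
    induction k with
    | zero => intro _; rw [hx0, hy0]
    | succ k ih =>
      intro hk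
      have h1 := hx k (by omega)
      have h2 := hy k (by omega)
      rw [ih (by omega)] at h1
      exact ch_uniq hJ hz hG (enum_D he (by omega)) h1 h2
  rw [← hxN, ← hyN, key N le_rfl]

/-- the code of a bit vector -/
noncomputable def bc (z0 z1 : K) (hG : Good M N) (he : Enum M N e) (b : ℕ → Bool) : K :=
  (exists_code hG he fun k => if b k = true then z1 else z0).choose

theorem bc_spec (hG : Good M N) (he : Enum M N e) (b : ℕ → Bool) (k : ℕ) (hk : k < N) :
    M.E (bc z0 z1 hG he b) (e k) (if b k = true then z1 else z0) :=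
  (exists_code hG he fun k => if b k = true then z1 else z0).choose_spec k hk

theorem bc_congr (hG : Good M N) (he : Enum M N e) (b b' : ℕ → Bool)
    (h : ∀ k, k < N → b k = b' k) : bc z0 z1 hG he b = bc z0 z1 hG he b' := by
  apply hG.ext
  intro i hi
  obtain ⟨k, hk, rfl⟩ := (he.1 _).1 hi
  refine ⟨_, bc_spec hG he b k hk, ?_⟩
  rw [h k hk]
  exact bc_spec hG he b' k hk

/-- subtrees -/
noncomputable def Tr (J : K → K → K) (z0 z1 : K) (hG : Good M N) (he : Enum M N e) (φ : K → K) :
    ℕ → (ℕ → Bool) → K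
  | 0, b => φ (bc z0 z1 hG he b)
  | r + 1, b => J (Tr J z0 z1 hG he φ r (Function.update b (N - (r + 1)) false))
      (Tr J z0 z1 hG he φ r (Function.update b (N - (r + 1)) true))

theorem Tr_congr (hG : Good M N) (he : Enum M N e) (φ : K → K) (r : ℕ) :
    r ≤ N → ∀ b b' : ℕ → Bool, (∀ k, k < N - r → b k = b' k) →
      Tr J z0 z1 hG he φ r b = Tr J z0 z1 hG he φ r b' := by
  induction r with
  | zero =>
    intro _ b b' h
    show φ _ = φ _
    rw [bc_congr hG he b b' (fun k hk => h k (by omega))]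
  | succ r ih =>
    intro hr b b' h
    show J _ _ = J _ _
    rw [ih (by omega) (Function.update b (N - (r + 1)) false)
      (Function.update b' (N - (r + 1)) false) ?_,
      ih (by omega) (Function.update b (N - (r + 1)) true)
      (Function.update b' (N - (r + 1)) true) ?_]
    · intro k hk
      by_cases hk1 : k = N - (r + 1)
      · rw [hk1, Function.update_self, Function.update_self]
      · rw [Function.update_of_ne hk1, Function.update_of_ne hk1]
        exact h k (by omega)
    · intro k hk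
      by_cases hk1 : k = N - (r + 1)
      · rw [hk1, Function.update_self, Function.update_self]
      · rw [Function.update_of_ne hk1, Function.update_of_ne hk1]
        exact h k (by omega)

/-- all functions have codes -/
theorem next_comp (hN : 1 ≤ N) (hG : Good M N) (φ : K → K) :
    ∃ s, ∀ i, (nextLev M J z0 z1).D i → (nextLev M J z0 z1).E s i (φ i) := by
  classical
  obtain ⟨e, he⟩ := hG.enum
  refine ⟨Tr J z0 z1 hG he φ N (fun _ => false), fun a ha => ?_⟩
  rw [E_path hG he hN]
  have ha' : ∀ i, M.D i → M.E a i z0 ∨ M.E a i z1 := ha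
  set b : ℕ → Bool := fun k => decide (M.E a (e k) z1) with hb
  have hb1 : ∀ k, k < N → M.E a (e k) (if b k = true then z1 else z0) := by
    intro k hk
    by_cases h : M.E a (e k) z1
    · have : b k = true := by rw [hb]; exact decide_eq_true h
      rw [if_pos this]
      exact h
    · have : ¬ b k = true := by rw [hb]; simpa using h
      rw [if_neg this]
      exact (ha' _ (enum_D he hk)).resolve_right h
  have hab : bc z0 z1 hG he b = a := by
    apply hG.ext
    intro i hi
    obtain ⟨k, hk, rfl⟩ := (he.1 _).1 hi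
    exact ⟨_, bc_spec hG he b k hk, hb1 k hk⟩
  refine ⟨fun k => Tr J z0 z1 hG he φ (N - k) b, ?_, ?_, ?_⟩
  · exact Tr_congr hG he φ N le_rfl b _ (fun k hk => by omega)
  · show Tr J z0 z1 hG he φ (N - N) b = φ a
    rw [Nat.sub_self]
    show φ _ = φ a
    rw [hab]
  · intro k hk
    obtain ⟨r, hr⟩ : ∃ r, N - k = r + 1 := ⟨N - k - 1, by omega⟩
    have hr1 : N - (k + 1) = r := by omega
    have hr2 : N - (r + 1) = k := by omega
    show Ch M J z0 z1 a (e k) (Tr J z0 z1 hG he φ (N - k) b) (Tr J z0 z1 hG he φ (N - (k + 1)) b)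
    rw [hr, hr1]
    have h1 := hb1 k hk
    have hT : Tr J z0 z1 hG he φ (r + 1) b = J (Tr J z0 z1 hG he φ r (Function.update b k false))
        (Tr J z0 z1 hG he φ r (Function.update b k true)) := by
      show J _ _ = J _ _
      rw [hr2]
    by_cases hbk : b k = true
    · rw [if_pos hbk] at h1
      refine ⟨Tr J z0 z1 hG he φ r (Function.update b k false), Or.inr ⟨h1, ?_⟩⟩
      rw [hT]
      congr 1
      rw [← hbk, Function.update_eq_self]
    · rw [if_neg hbk] at h1
      refine ⟨Tr J z0 z1 hG he φ r (Function.update b k true), Or.inl ⟨h1, ?_⟩⟩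
      rw [hT]
      congr 1
      rw [← (Bool.not_eq_true _).mp hbk, Function.update_eq_self]

end

/-- the first level is good -/
theorem t_LEV0 : S_LEV0 := by
  intro K J z0 z1 hJ hz
  refine ⟨⟨fun k => if k = 0 then z0 else z1, ?_, ?_⟩, ?_, ?_, ?_⟩
  · intro x
    constructor
    · rintro (h | h)
      · exact ⟨0, by norm_num, by simpa using h⟩
      · exact ⟨1, by norm_num, by simpa using h⟩
    · rintro ⟨k, hk, rfl⟩
      by_cases h0 : k = 0
      · left; simp [h0]
      · right; simp [h0]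
  · intro j k hj hk
    show (if j = 0 then z0 else z1) = z0 ∧ (if k = 0 then z0 else z1) = z1 ↔ j < k
    rcases (by omega : j = 0 ∨ j = 1) with h1 | h1 <;>
      rcases (by omega : k = 0 ∨ k = 1) with h2 | h2 <;> subst h1 <;> subst h2 <;>
      simp [hz, hz.symm]
  · rintro s i v v' hi (⟨h1, u, h2⟩ | ⟨h1, u, h2⟩) (⟨h3, u', h4⟩ | ⟨h3, u', h4⟩)
    · exact (hJ _ _ _ _ (h2.trans h4.symm)).1
    · exact absurd (h1.symm.trans h3) hz
    · exact absurd (h3.symm.trans h1) hz
    · exact (hJ _ _ _ _ (h2.trans h4.symm)).2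
  · intro φ
    refine ⟨J (φ z0) (φ z1), ?_⟩
    rintro i (rfl | rfl)
    · exact Or.inl ⟨rfl, _, rfl⟩
    · exact Or.inr ⟨rfl, _, rfl⟩
  · intro s s' h
    obtain ⟨v, h1, h2⟩ := h z0 (Or.inl rfl)
    obtain ⟨w, h3, h4⟩ := h z1 (Or.inr rfl)
    rcases h1 with ⟨_, u, h1⟩ | ⟨hc, _⟩
    swap
    · exact absurd hc hz
    rcases h2 with ⟨_, u', h2⟩ | ⟨hc, _⟩
    swap
    · exact absurd hc hz
    rcases h3 with ⟨hc, _⟩ | ⟨_, u2, h3⟩
    · exact absurd hc.symm hz
    rcases h4 with ⟨hc, _⟩ | ⟨_, u3, h4⟩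
    · exact absurd hc.symm hz
    have e1 : u = w := (hJ _ _ _ _ (h1.trans h3.symm)).2
    have e2 : u' = w := (hJ _ _ _ _ (h2.trans h4.symm)).2
    rw [← h1, ← h2, e1, e2]

/-- injectivity of the pairing in a field -/
theorem t_INJ : S_INJ := by
  intro K _ p _ _ t ht x y x' y' h
  have hp : p.Prime := Fact.out
  haveI : ExpChar K p := ExpChar.prime hp
  have h1 : (x - x') ^ p = t * (y' - y) ^ p := by
    rw [sub_pow_expChar, sub_pow_expChar]
    have h2 : x ^ p + t * y ^ p = x' ^ p + t * y' ^ p := h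
    linear_combination h2
  by_cases hy : y' - y = 0
  · rw [hy, zero_pow hp.ne_zero, mul_zero] at h1
    have h2 : x - x' = 0 := by
      rwa [pow_eq_zero_iff hp.ne_zero] at h1
    exact ⟨sub_eq_zero.1 h2, (sub_eq_zero.1 hy).symm⟩
  · exfalso
    refine ht ((x - x') / (y' - y)) ?_
    rw [div_pow, h1, mul_div_assoc, div_self (pow_ne_zero _ hy), mul_one]

end Pool.Agent.R621.EL
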