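import Pool.Agent.Y924.EL.Stm

/-!
# EL-EVX: extensionality of the evaluation relation of the next level (helper138)
-/

set_option autoImplicit false

namespace Pool.Agent.R621.EL

open Pool.Agent.Y924.EL

namespace EvX

variable {K : Type} (J : K → K → K) (z0 z1 : K) (M : Lev K) (e : ℕ → K)

/-- `y` is reached from `s` after `k` steps along the bits of `a` -/
def Pth (s a : K) : ℕ → K → Prop
  | 0, y => y = s
  | k + 1, y => ∃ x, Pth s a k x ∧ Ch M J z0 z1 a (e k) x y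

variable {J z0 z1 M e} {N : ℕ}

theorem dom (he : Enum M N e) {k : ℕ} (hk : k < N) : M.D (e k) := (he.1 _).2 ⟨k, hk, rfl⟩

theorem fst (he : Enum M N e) (hN : 1 ≤ N) : Fst M (e 0) := by
  refine ⟨dom he hN, ?_⟩
  rintro ⟨j, hj, hL⟩
  obtain ⟨k, hk, rfl⟩ := (he.1 j).1 hj
  have := (he.2 k 0 hk hN).1 hL
  omega

theorem lst (he : Enum M N e) (hN : 1 ≤ N) : Lst M (e (N - 1)) := by
  refine ⟨dom he (by omega), ?_⟩
  rintro ⟨j, hj, hL⟩
  obtain ⟨k, hk, rfl⟩ := (he.1 j).1 hj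
  have := (he.2 (N - 1) k (by omega) hk).1 hL
  omega

theorem suc (he : Enum M N e) {k : ℕ} (hk : k + 1 < N) : Suc M (e k) (e (k + 1)) := by
  refine ⟨dom he (by omega), dom he hk, (he.2 k (k + 1) (by omega) hk).2 (by omega), ?_⟩
  rintro ⟨x, hx, h1, h2⟩
  obtain ⟨j, hj, rfl⟩ := (he.1 x).1 hx
  have h3 := (he.2 k j (by omega) hj).1 h1
  have h4 := (he.2 j (k + 1) hj hk).1 h2
  omega

theorem path_of_E (hg : Good M N) (he : Enum M N e) (hN : 1 ≤ N) {s a v : K}
    (h : (nextLev M J z0 z1).E s a v) : Pth J z0 z1 M e s a N v := by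
  obtain ⟨w, h1, h2, h3⟩ := h
  have key : ∀ k, k < N → ∃ x, M.E w (e k) x ∧ Pth J z0 z1 M e s a k x := by
    intro k
    induction k with
    | zero => intro _; exact ⟨s, h1 _ (fst he hN), rfl⟩
    | succ k ih =>
      intro hk
      obtain ⟨x0, hx0, hp⟩ := ih (by omega)
      obtain ⟨x, y, hx, hy, hc⟩ := h2 _ _ (suc he hk)
      have := hg.func w (e k) x x0 (dom he (by omega)) hx hx0
      subst this
      exact ⟨y, hy, x, hp, hc⟩
  obtain ⟨x0, hx0, hp⟩ := key (N - 1) (by omega)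
  obtain ⟨x, hx, hc⟩ := h3 _ (lst he hN)
  have := hg.func w (e (N - 1)) x x0 (dom he (by omega)) hx hx0
  subst this
  obtain ⟨n, rfl⟩ : ∃ n, N = n + 1 := ⟨N - 1, by omega⟩
  exact ⟨x, hp, hc⟩

theorem Ch_det (hJ : Inj2 J) (hz : z0 ≠ z1) (hg : Good M N) {a i x y y' : K} (hi : M.D i)
    (h : Ch M J z0 z1 a i x y) (h' : Ch M J z0 z1 a i x y') : y = y' := by
  obtain ⟨u, h | h⟩ := h <;> obtain ⟨u', h' | h'⟩ := h'
  · exact (hJ _ _ _ _ (h.2.trans h'.2.symm)).1
  · exact absurd (hg.func a i _ _ hi h.1 h'.1) hz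
  · exact absurd (hg.func a i _ _ hi h'.1 h.1) hz
  · exact (hJ _ _ _ _ (h.2.trans h'.2.symm)).2

theorem Pth_det (hJ : Inj2 J) (hz : z0 ≠ z1) (hg : Good M N) (he : Enum M N e) {s a : K}
    (k : ℕ) (hk : k ≤ N) {y y' : K} (h : Pth J z0 z1 M e s a k y)
    (h' : Pth J z0 z1 M e s a k y') : y = y' := by
  induction k generalizing y y' with
  | zero => exact Eq.trans h (Eq.symm h')
  | succ k ih =>
    obtain ⟨x, hx, hc⟩ := h
    obtain ⟨x', hx', hc'⟩ := h'
    have := ih (by omega) hx hx'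
    subst this
    exact Ch_det hJ hz hg (dom he (by omega)) hc hc'

/-- prefixes -/
theorem Pth_pre {s a : K} (n k : ℕ) (hk : k ≤ n) {v : K} (h : Pth J z0 z1 M e s a n v) :
    ∃ y, Pth J z0 z1 M e s a k y := by
  induction n generalizing v with
  | zero =>
    have : k = 0 := by omega
    subst this
    exact ⟨v, h⟩
  | succ n ih =>
    rcases Nat.lt_or_ge k (n + 1) with h1 | h1
    · obtain ⟨x, hx, _⟩ := h
      exact ih (by omega) hx
    · have : k = n + 1 := by omega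
      subst this
      exact ⟨v, h⟩

/-- only the bits below `k` matter -/
theorem Pth_congr {s a b : K} (k : ℕ)
    (hab : ∀ j < k, (M.E a (e j) z0 → M.E b (e j) z0) ∧ (M.E a (e j) z1 → M.E b (e j) z1)) {y : K}
    (h : Pth J z0 z1 M e s a k y) : Pth J z0 z1 M e s b k y := by
  induction k generalizing y with
  | zero => exact h
  | succ k ih =>
    obtain ⟨x, hx, u, hc⟩ := h
    refine ⟨x, ih (fun j hj => hab j (by omega)) hx, u, ?_⟩
    rcases hc with hc | hc
    · exact Or.inl ⟨(hab k (by omega)).1 hc.1, hc.2⟩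
    · exact Or.inr ⟨(hab k (by omega)).2 hc.1, hc.2⟩

/-- changing one bit -/
theorem modify (hg : Good M N) (he : Enum M N e) {a : K} (ha : (nextLev M J z0 z1).D a) (k : ℕ)
    (hk : k < N) (b : K) (hb : b = z0 ∨ b = z1) : ∃ c, (nextLev M J z0 z1).D c ∧ M.E c (e k) b ∧
      ∀ j < k, (M.E a (e j) z0 → M.E c (e j) z0) ∧ (M.E a (e j) z1 → M.E c (e j) z1) := by
  classical
  have hval : ∀ i, M.D i → ∃ v, M.E a i v ∧ (v = z0 ∨ v = z1) := by
    intro i hi
    rcases ha i hi with h | h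
    · exact ⟨z0, h, Or.inl rfl⟩
    · exact ⟨z1, h, Or.inr rfl⟩
  obtain ⟨c, hc⟩ := hg.comp fun i => if i = e k then b else
    if h : M.D i then (hval i h).choose else b
  have hne : ∀ j < k, e j ≠ e k := by
    intro j hj h
    have h1 := (he.2 j k (by omega) hk).2 hj
    rw [h] at h1
    have := (he.2 k k hk hk).1 h1
    omega
  refine ⟨c, ?_, ?_, ?_⟩
  · intro i hi
    have h1 := hc i hi
    by_cases h2 : i = e k
    · rw [if_pos h2] at h1
      rcases hb with hb | hb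
      · left; rw [← hb]; exact h1
      · right; rw [← hb]; exact h1
    · rw [if_neg h2, dif_pos hi] at h1
      rcases (hval i hi).choose_spec.2 with h3 | h3
      · left; rwa [h3] at h1
      · right; rwa [h3] at h1
  · have h1 := hc (e k) (dom he hk)
    rwa [if_pos rfl] at h1
  · intro j hj
    have hD : M.D (e j) := dom he (by omega)
    have h1 := hc (e j) hD
    rw [if_neg (hne j hj), dif_pos hD] at h1
    have h2 := (hval (e j) hD).choose_spec.1
    constructor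
    · intro h3
      rwa [hg.func a (e j) _ _ hD h2 h3] at h1
    · intro h3
      rwa [hg.func a (e j) _ _ hD h2 h3] at h1

end EvX

open EvX in
theorem t_EVX : ∀ (K : Type) (J : K → K → K) (z0 z1 : K) (M : Lev K) (N : ℕ), Inj2 J →
    z0 ≠ z1 → 1 ≤ N → Good M N → ∀ s s',
    (∀ i, (nextLev M J z0 z1).D i →
      ∃ v, (nextLev M J z0 z1).E s i v ∧ (nextLev M J z0 z1).E s' i v) → s = s' := by
  intro K J z0 z1 M N hJ hz hN hg s s' h
  obtain ⟨e, he⟩ := hg.enum
  -- the two children of a node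
  have child : ∀ t, (∀ i, (nextLev M J z0 z1).D i → ∃ v, (nextLev M J z0 z1).E t i v) →
      ∀ k, k < N → ∀ a y, Pth J z0 z1 M e t a k y → ∀ a0 a1,
      (nextLev M J z0 z1).D a0 → (nextLev M J z0 z1).D a1 → M.E a0 (e k) z0 → M.E a1 (e k) z1 →
      (∀ j < k, (M.E a (e j) z0 → M.E a0 (e j) z0) ∧ (M.E a (e j) z1 → M.E a0 (e j) z1)) →
      (∀ j < k, (M.E a (e j) z0 → M.E a1 (e j) z0) ∧ (M.E a (e j) z1 → M.E a1 (e j) z1)) →
      ∃ y0 y1, Pth J z0 z1 M e t a0 (k + 1) y0 ∧ Pth J z0 z1 M e t a1 (k + 1) y1 ∧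
        y = J y0 y1 := by
    intro t ht k hk a y hy a0 a1 hD0 hD1 hE0 hE1 hc0 hc1
    obtain ⟨v0, hv0⟩ := ht a0 hD0
    obtain ⟨v1, hv1⟩ := ht a1 hD1
    obtain ⟨y0, hy0⟩ := Pth_pre N (k + 1) hk (path_of_E hg he hN hv0)
    obtain ⟨y1, hy1⟩ := Pth_pre N (k + 1) hk (path_of_E hg he hN hv1)
    have p0 := Pth_congr k hc0 hy
    have p1 := Pth_congr k hc1 hy
    have hDk := dom he hk
    have e0 : ∃ u, J y0 u = y := by
      obtain ⟨x, hx, u, hc | hc⟩ := hy0
      · have := Pth_det hJ hz hg he k hk.le hx p0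
        subst this
        exact ⟨u, hc.2⟩
      · exact absurd (hg.func a0 (e k) _ _ hDk hE0 hc.1) hz
    have e1 : ∃ u, J u y1 = y := by
      obtain ⟨x, hx, u, hc | hc⟩ := hy1
      · exact absurd (hg.func a1 (e k) _ _ hDk hc.1 hE1) hz
      · have := Pth_det hJ hz hg he k hk.le hx p1
        subst this
        exact ⟨u, hc.2⟩
    obtain ⟨u0, hu0⟩ := e0
    obtain ⟨u1, hu1⟩ := e1
    have h3 := (hJ _ _ _ _ (hu0.trans hu1.symm)).2
    subst h3
    exact ⟨y0, u0, hy0, hy1, hu0.symm⟩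
  have key : ∀ n k, k + n = N → ∀ a, (nextLev M J z0 z1).D a → ∀ y y',
      Pth J z0 z1 M e s a k y → Pth J z0 z1 M e s' a k y' → y = y' := by
    intro n
    induction n with
    | zero =>
      intro k hk a ha y y' hy hy'
      have : k = N := by omega
      subst this
      obtain ⟨v, hv, hv'⟩ := h a ha
      rw [Pth_det hJ hz hg he k le_rfl hy (path_of_E hg he hN hv),
        Pth_det hJ hz hg he k le_rfl hy' (path_of_E hg he hN hv')]
    | succ n ih =>
      intro k hk a ha y y' hy hy'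
      obtain ⟨a0, hD0, hE0, hc0⟩ := modify hg he ha k (by omega) z0 (Or.inl rfl)
      obtain ⟨a1, hD1, hE1, hc1⟩ := modify hg he ha k (by omega) z1 (Or.inr rfl)
      obtain ⟨y0, y1, q0, q1, rfl⟩ := child s (fun i hi => (h i hi).imp fun v hv => hv.1) k
        (by omega) a y hy a0 a1 hD0 hD1 hE0 hE1 hc0 hc1
      obtain ⟨y0', y1', q0', q1', rfl⟩ := child s' (fun i hi => (h i hi).imp fun v hv => hv.2) k
        (by omega) a y' hy' a0 a1 hD0 hD1 hE0 hE1 hc0 hc1
      rw [ih (k + 1) (by omega) a0 hD0 y0 y0' q0 q0', ih (k + 1) (by omega) a1 hD1 y1 y1' q1 q1']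
  obtain ⟨a, ha⟩ := hg.comp fun _ => z0
  exact key N 0 (by omega) a (fun i hi => Or.inl (ha i hi)) s s' rfl rfl

end Pool.Agent.R621.EL
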