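import Pool.Agent.R621.EL.Main

/-! # Linear formulas -/

set_option autoImplicit false

namespace Pool.Agent.R621.EL

open Pool.Agent.Y924.EL Function

/-- linear formulas: built from `x_i = x_j`, `x_i = 1`, `x_i + x_j = x_k` and the formula
`x_0 ^ p + x_3 x_1 ^ p = x_2`, without quantification over `x_3` -/
inductive Lin (p : ℕ) : Fm → Prop
  | eq (i j : ℕ) : Lin p (.eq i j)
  | one (i : ℕ) : Lin p (.one i)
  | add (i j k : ℕ) : Lin p (.add i j k)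
  | pair : Lin p (JF p)
  | neg {φ : Fm} : Lin p φ → Lin p (.neg φ)
  | and {φ ψ : Fm} : Lin p φ → Lin p ψ → Lin p (.and φ ψ)
  | ex {i : ℕ} {φ : Fm} : i ≠ 3 → Lin p φ → Lin p (.ex i φ)

/-- the same for templates -/
def LinT (p : ℕ) : Tp → Prop
  | .hole _ => True
  | .atom φ => Lin p φ
  | .neg τ => LinT p τ
  | .and τ υ => LinT p τ ∧ LinT p υ
  | .ex i τ => i ≠ 3 ∧ LinT p τ

theorem lin_inst (p : ℕ) (h : Fin 5 → Fm) (hh : ∀ i, Lin p (h i)) (τ : Tp) (hτ : LinT p τ) :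
    Lin p (τ.inst h) := by
  induction τ with
  | hole i => exact hh i
  | atom φ => exact hτ
  | neg τ ih => exact Lin.neg (ih hτ)
  | and τ υ ih1 ih2 => exact Lin.and (ih1 hτ.1) (ih2 hτ.2)
  | ex i τ ih => exact Lin.ex hτ.1 (ih hτ.2)

theorem lt_hole (p : ℕ) (i : Fin 5) : LinT p (.hole i) := trivial
theorem lt_eqv (p i j : ℕ) : LinT p (Tp.eqv i j) := Lin.eq i j
theorem lt_isZ (p i : ℕ) : LinT p (Tp.isZ i) := Lin.add i i i
theorem lt_isO (p i : ℕ) : LinT p (Tp.isO i) := Lin.one i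
theorem lt_neg {p : ℕ} {τ : Tp} (h : LinT p τ) : LinT p (.neg τ) := h
theorem lt_and {p : ℕ} {τ υ : Tp} (h : LinT p τ) (h' : LinT p υ) : LinT p (.and τ υ) := ⟨h, h'⟩
theorem lt_ex {p i : ℕ} {τ : Tp} (hi : i ≠ 3) (h : LinT p τ) : LinT p (.ex i τ) := ⟨hi, h⟩
theorem lt_or {p : ℕ} {τ υ : Tp} (h : LinT p τ) (h' : LinT p υ) : LinT p (.or τ υ) := ⟨h, h'⟩
theorem lt_imp {p : ℕ} {τ υ : Tp} (h : LinT p τ) (h' : LinT p υ) : LinT p (.imp τ υ) := ⟨h, h'⟩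
theorem lt_all {p i : ℕ} {τ : Tp} (hi : i ≠ 3) (h : LinT p τ) : LinT p (.all i τ) := ⟨hi, h⟩
theorem lt_call1 {p a : ℕ} {τ : Tp} (h : LinT p τ) : LinT p (.call1 τ a) :=
  ⟨by norm_num, lt_eqv _ _ _, h⟩
theorem lt_call2 {p a b : ℕ} {τ : Tp} (h : LinT p τ) : LinT p (.call2 τ a b) :=
  ⟨by norm_num, lt_eqv _ _ _, by norm_num, lt_eqv _ _ _, h⟩
theorem lt_call3 {p a b c : ℕ} {τ : Tp} (h : LinT p τ) : LinT p (.call3 τ a b c) :=
  ⟨by norm_num, lt_eqv _ _ _, by norm_num, lt_eqv _ _ _, by norm_num, lt_eqv _ _ _, h⟩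
theorem lt_arg1 {p : ℕ} {τ : Tp} (h : LinT p τ) : LinT p (.arg1 τ) :=
  ⟨by norm_num, lt_eqv _ _ _, h⟩
theorem lt_arg2 {p : ℕ} {τ : Tp} (h : LinT p τ) : LinT p (.arg2 τ) :=
  ⟨by norm_num, lt_eqv _ _ _, by norm_num, lt_eqv _ _ _, h⟩
theorem lt_arg3 {p : ℕ} {τ : Tp} (h : LinT p τ) : LinT p (.arg3 τ) :=
  ⟨by norm_num, lt_eqv _ _ _, by norm_num, lt_eqv _ _ _, by norm_num, lt_eqv _ _ _, h⟩
theorem lt_cD (p a : ℕ) : LinT p (Tp.cD a) := lt_call1 (lt_hole _ _)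
theorem lt_cL (p a b : ℕ) : LinT p (Tp.cL a b) := lt_call2 (lt_hole _ _)
theorem lt_cE (p a b c : ℕ) : LinT p (Tp.cE a b c) := lt_call3 (lt_hole _ _)
theorem lt_cA (p a : ℕ) : LinT p (Tp.cA a) := lt_call1 (lt_hole _ _)
theorem lt_cP (p a b c : ℕ) : LinT p (Tp.cP a b c) := lt_call3 (lt_hole _ _)
theorem lt_cJ (p a b c : ℕ) : LinT p (Tp.cJ p a b c) := lt_call3 (τ := .atom (JF p)) Lin.pair
theorem lt_cE0 (p a b : ℕ) : LinT p (Tp.cE0 a b) :=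
  lt_ex (by norm_num) (lt_and (lt_isZ _ _) (lt_cE _ _ _ _))
theorem lt_cE1 (p a b : ℕ) : LinT p (Tp.cE1 a b) :=
  lt_ex (by norm_num) (lt_and (lt_isO _ _) (lt_cE _ _ _ _))
theorem lt_cFst (p a : ℕ) : LinT p (Tp.cFst a) :=
  lt_and (lt_cD _ _) (lt_neg (lt_ex (by norm_num) (lt_and (lt_cD _ _) (lt_cL _ _ _))))
theorem lt_cLst (p a : ℕ) : LinT p (Tp.cLst a) :=
  lt_and (lt_cD _ _) (lt_neg (lt_ex (by norm_num) (lt_and (lt_cD _ _) (lt_cL _ _ _))))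
theorem lt_cSuc (p a b : ℕ) : LinT p (Tp.cSuc a b) :=
  lt_and (lt_cD _ _) (lt_and (lt_cD _ _) (lt_and (lt_cL _ _ _)
    (lt_neg (lt_ex (by norm_num) (lt_and (lt_cD _ _) (lt_and (lt_cL _ _ _) (lt_cL _ _ _)))))))
theorem lt_cCh (p a i x y : ℕ) : LinT p (Tp.cCh p a i x y) :=
  lt_ex (by norm_num) (lt_or (lt_and (lt_cE0 _ _ _) (lt_cJ _ _ _ _))
    (lt_and (lt_cE1 _ _ _) (lt_cJ _ _ _ _)))
theorem lt_cNxt (p a b c d : ℕ) : LinT p (Tp.cNxt a b c d) :=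
  lt_or (lt_ex (by norm_num) (lt_and (lt_cSuc _ _ _) (lt_and (lt_cL _ _ _)
    (lt_and (lt_eqv _ _ _) (lt_eqv _ _ _)))))
    (lt_or (lt_and (lt_cSuc _ _ _) (lt_and (lt_eqv _ _ _) (lt_cFst _ _)))
      (lt_or (lt_and (lt_cL _ _ _) (lt_and (lt_eqv _ _ _) (lt_cSuc _ _ _)))
        (lt_and (lt_eqv _ _ _) (lt_and (lt_cFst _ _) (lt_cSuc _ _ _)))))
theorem lt_cNum (p k : ℕ) : ∀ a : ℕ, LinT p (Tp.cNum k a) := by
  induction k with
  | zero => exact fun a => lt_cFst p a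
  | succ k ih =>
    intro a
    exact lt_ex (by norm_num) (lt_and (lt_eqv _ _ _) (lt_ex (by norm_num)
      (lt_and (lt_ex (by norm_num) (lt_and (lt_eqv _ _ _) (ih 32))) (lt_cSuc _ _ _))))
theorem lt_cMem (p a b c d : ℕ) : LinT p (Tp.cMem a b c d) :=
  lt_ex (by norm_num) (lt_ex (by norm_num) (lt_and (lt_cP _ _ _ _) (lt_and (lt_cP _ _ _ _)
    (lt_cE1 _ _ _))))

theorem lt_D0 (p : ℕ) : LinT p Tp.D0 := lt_arg1 (lt_or (lt_isZ _ _) (lt_isO _ _))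
theorem lt_L0 (p : ℕ) : LinT p Tp.L0 := lt_arg2 (lt_and (lt_isZ _ _) (lt_isO _ _))
theorem lt_E0 (p : ℕ) : LinT p (Tp.E0 p) :=
  lt_arg3 (lt_or (lt_and (lt_isZ _ _) (lt_ex (by norm_num) (lt_cJ _ _ _ _)))
    (lt_and (lt_isO _ _) (lt_ex (by norm_num) (lt_cJ _ _ _ _))))
theorem lt_D1 (p : ℕ) : LinT p Tp.D1 :=
  lt_arg1 (lt_all (by norm_num) (lt_imp (lt_cD _ _) (lt_or (lt_cE0 _ _ _) (lt_cE1 _ _ _))))
theorem lt_L1 (p : ℕ) : LinT p Tp.L1 :=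
  lt_arg2 (lt_ex (by norm_num) (lt_and (lt_cD _ _) (lt_and (lt_cE0 _ _ _) (lt_and (lt_cE1 _ _ _)
    (lt_all (by norm_num) (lt_imp (lt_cD _ _) (lt_imp (lt_cL _ _ _)
      (lt_or (lt_and (lt_cE0 _ _ _) (lt_cE0 _ _ _)) (lt_and (lt_cE1 _ _ _) (lt_cE1 _ _ _))))))))))
theorem lt_E1 (p : ℕ) : LinT p (Tp.E1 p) :=
  lt_arg3 (lt_ex (by norm_num) (lt_and (lt_all (by norm_num) (lt_imp (lt_cFst _ _) (lt_cE _ _ _ _)))
    (lt_and (lt_all (by norm_num) (lt_all (by norm_num) (lt_imp (lt_cSuc _ _ _)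
      (lt_ex (by norm_num) (lt_ex (by norm_num) (lt_and (lt_cE _ _ _ _) (lt_and (lt_cE _ _ _ _)
        (lt_cCh _ _ _ _ _))))))))
      (lt_all (by norm_num) (lt_imp (lt_cLst _ _) (lt_ex (by norm_num) (lt_and (lt_cE _ _ _ _)
        (lt_cCh _ _ _ _ _))))))))
theorem lt_A0 (p : ℕ) : LinT p Tp.A0 := lt_arg1 (lt_cFst _ _)
theorem lt_A1 (p : ℕ) : LinT p Tp.A1 :=
  lt_arg1 (lt_ex (by norm_num) (lt_and (lt_cA _ _) (lt_cSuc _ _ _)))
theorem lt_P1 (p : ℕ) : LinT p Tp.P1 :=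
  lt_arg3 (lt_and (lt_cD _ _) (lt_ex (by norm_num) (lt_ex (by norm_num) (lt_and
    (lt_all (by norm_num) (lt_imp (lt_cFst _ _) (lt_and (lt_cE _ _ _ _) (lt_cE _ _ _ _))))
    (lt_and (lt_all (by norm_num) (lt_all (by norm_num) (lt_imp (lt_cSuc _ _ _)
      (lt_ex (by norm_num) (lt_ex (by norm_num) (lt_ex (by norm_num) (lt_ex (by norm_num)
        (lt_and (lt_cE _ _ _ _) (lt_and (lt_cE _ _ _ _) (lt_and (lt_cE _ _ _ _)
          (lt_and (lt_cE _ _ _ _) (lt_cNxt _ _ _ _ _))))))))))))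
      (lt_and (lt_cE _ _ _ _) (lt_cE _ _ _ _)))))))
theorem lt_cRec (p : ℕ) : LinT p Tp.cRec :=
  lt_ex (by norm_num) (lt_ex (by norm_num) (lt_and (lt_cP _ _ _ _) (lt_or
    (lt_and (lt_cFst _ _) (lt_cMem _ _ _ _ _))
    (lt_ex (by norm_num) (lt_ex (by norm_num) (lt_ex (by norm_num) (lt_ex (by norm_num)
      (lt_ex (by norm_num) (lt_and (lt_cSuc _ _ _) (lt_and (lt_cP _ _ _ _)
        (lt_and (lt_cMem _ _ _ _ _) (lt_and (lt_cP _ _ _ _) (lt_and (lt_cP _ _ _ _)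
          (lt_cMem _ _ _ _ _))))))))))))))
theorem lt_cCases (p : ℕ) : LinT p Tp.cCases :=
  lt_or (lt_and (lt_cNum _ _ _) (lt_cFst _ _)) (lt_or (lt_and (lt_cNum _ _ _) (lt_cSuc _ _ _))
    (lt_or (lt_and (lt_cNum _ _ _) (lt_ex (by norm_num) (lt_cP _ _ _ _)))
    (lt_or (lt_and (lt_cNum _ _ _) (lt_ex (by norm_num) (lt_cP _ _ _ _)))
    (lt_or (lt_and (lt_cNum _ _ _) (lt_ex (by norm_num) (lt_ex (by norm_num)
      (lt_and (lt_cMem _ _ _ _ _) (lt_and (lt_cMem _ _ _ _ _) (lt_cP _ _ _ _))))))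
    (lt_or (lt_and (lt_cNum _ _ _) (lt_ex (by norm_num) (lt_and (lt_cMem _ _ _ _ _)
      (lt_cMem _ _ _ _ _))))
    (lt_and (lt_cNum _ _ _) (lt_cRec _)))))))
theorem lt_cJust (p : ℕ) : LinT p Tp.cJust :=
  lt_ex (by norm_num) (lt_ex (by norm_num) (lt_ex (by norm_num) (lt_ex (by norm_num)
    (lt_ex (by norm_num) (lt_ex (by norm_num) (lt_ex (by norm_num) (lt_ex (by norm_num)
      (lt_and (lt_cP _ _ _ _) (lt_and (lt_cP _ _ _ _) (lt_and (lt_cP _ _ _ _)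
        (lt_and (lt_cP _ _ _ _) (lt_cCases _))))))))))))
theorem lt_cUni (p : ℕ) : LinT p Tp.cUni :=
  lt_ex (by norm_num) (lt_and (lt_all (by norm_num) (lt_imp (lt_cD _ _) (lt_imp (lt_cE1 _ _ _)
    (lt_cJust _)))) (lt_cMem _ _ _ _ _))
theorem lt_Body (p : ℕ) : LinT p Tp.Body :=
  lt_ex (by norm_num) (lt_and (lt_cA _ _) (lt_ex (by norm_num) (lt_ex (by norm_num)
    (lt_and (lt_cP _ _ _ _) (lt_ex (by norm_num) (lt_and (lt_cNum _ _ _) (lt_cUni _)))))))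

theorem lin_step (p : ℕ) (T : Fin 5 → Tp) (hT : ∀ i, LinT p (T i)) (h : Fin 5 → Fm)
    (hh : ∀ i, Lin p (h i)) : ∀ i, Lin p (stepH T h i) :=
  fun i => lin_inst p h hh (T i) (hT i)

theorem lin_iter (p : ℕ) (T : Fin 5 → Tp) (hT : ∀ i, LinT p (T i)) (m : ℕ) (h : Fin 5 → Fm)
    (hh : ∀ i, Lin p (h i)) : ∀ i, Lin p ((stepH T)^[m] h i) := by
  induction m with
  | zero => exact hh
  | succ m ih =>
    rw [Function.iterate_succ_apply']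
    exact lin_step p T hT _ ih

theorem lin_h0 (p : ℕ) : ∀ i, Lin p (h0 p i) := by
  have h1 : ∀ i : Fin 5, Lin p ((fun _ => .one 0 : Fin 5 → Fm) i) := fun _ => Lin.one 0
  intro i
  fin_cases i
  · exact lin_inst p _ h1 _ (lt_D0 p)
  · exact lin_inst p _ h1 _ (lt_L0 p)
  · exact lin_inst p _ h1 _ (lt_E0 p)
  · exact Lin.one 0
  · exact Lin.one 0

theorem lin_hfin (p m : ℕ) : ∀ i, Lin p (hfin p m i) := by
  refine lin_iter p TA1 ?_ m _ (lin_step p TA0 ?_ _ (lin_iter p (TL p) ?_ m _ (lin_h0 p)))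
  · intro i
    fin_cases i
    · exact lt_hole _ _
    · exact lt_hole _ _
    · exact lt_hole _ _
    · exact lt_A1 p
    · exact lt_hole _ _
  · intro i
    fin_cases i
    · exact lt_hole _ _
    · exact lt_hole _ _
    · exact lt_hole _ _
    · exact lt_A0 p
    · exact lt_P1 p
  · intro i
    fin_cases i
    · exact lt_D1 p
    · exact lt_L1 p
    · exact lt_E1 p
    · exact lt_hole _ _
    · exact lt_hole _ _

/-- the formula inside the sentence, with the free variable `x_3` -/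
def bodyF (p m : ℕ) : Fm := Tp.Body.inst (hfin p m)

theorem lin_body (p m : ℕ) : Lin p (bodyF p m) := lin_inst p _ (lin_hfin p m) _ (lt_Body p)

end Pool.Agent.R621.EL
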