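import Pool.Agent.Y924.EL.Sem

/-! # EL-SEMB: the meaning of the body of the final sentence -/

set_option autoImplicit false

namespace Pool.Agent.R621.EL

open Function Pool.Agent.Y924.EL

namespace SEMB

section

variable {K : Type} [CommRing K] {O : Set K} {t : K} {h : Fin 5 → Fm} {M : Lev K} {k : ℕ}

omit [CommRing K] in
lemma upd3 {v : ℕ → K} (hv : v 3 = t) {i : ℕ} (hi : 3 ≠ i) (a : K) : update v i a 3 = t := by
  rw [update_of_ne hi, hv]

lemma s_cD (hR : Rep O t h M) {v : ℕ → K} (hv : v 3 = t) {a : ℕ} (ha : a ≠ 0) :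
    Sat O ((Tp.cD a).inst h) v ↔ M.D (v a) := by
  rw [Tp.cD, sat_call1 O h v _ ha, sat_hole, (hR _ (upd3 hv (by norm_num) _)).1, update_self]

lemma s_cL (hR : Rep O t h M) {v : ℕ → K} (hv : v 3 = t) {a b : ℕ} (ha : a ≠ 0) (hb : b ≠ 0)
    (hb1 : b ≠ 1) :
    Sat O ((Tp.cL a b).inst h) v ↔ M.L (v a) (v b) := by
  rw [Tp.cL, sat_call2 O h v _ ha hb hb1, sat_hole,
    (hR _ (upd3 (upd3 hv (by norm_num) _) (by norm_num) _)).2.1, update_self,
    update_of_ne (by norm_num : (0 : ℕ) ≠ 1), update_self]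

lemma s_cE (hR : Rep O t h M) {v : ℕ → K} (hv : v 3 = t) {a b c : ℕ} (ha : a ≠ 0) (hb : b ≠ 0)
    (hb1 : b ≠ 1) (hc : c ≠ 0) (hc1 : c ≠ 1) (hc2 : c ≠ 2) :
    Sat O ((Tp.cE a b c).inst h) v ↔ M.E (v a) (v b) (v c) := by
  rw [Tp.cE, sat_call3 O h v _ ha hb hb1 hc hc1 hc2, sat_hole,
    (hR _ (upd3 (upd3 (upd3 hv (by norm_num) _) (by norm_num) _) (by norm_num) _)).2.2,
    update_self, update_of_ne (by norm_num : (0 : ℕ) ≠ 2),
    update_of_ne (by norm_num : (0 : ℕ) ≠ 1), update_self,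
    update_of_ne (by norm_num : (1 : ℕ) ≠ 2), update_self]

lemma s_cA (hR : Rep2 O t h M k) {v : ℕ → K} (hv : v 3 = t) {a : ℕ} (ha : a ≠ 0) :
    Sat O ((Tp.cA a).inst h) v ↔ Num M k (v a) := by
  rw [Tp.cA, sat_call1 O h v _ ha, sat_hole, (hR _ (upd3 hv (by norm_num) _)).1, update_self]

lemma s_cP (hR : Rep2 O t h M k) {v : ℕ → K} (hv : v 3 = t) {a b c : ℕ} (ha : a ≠ 0)
    (hb : b ≠ 0) (hb1 : b ≠ 1) (hc : c ≠ 0) (hc1 : c ≠ 1) (hc2 : c ≠ 2) :
    Sat O ((Tp.cP a b c).inst h) v ↔ PairR M (v a) (v b) (v c) := by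
  rw [Tp.cP, sat_call3 O h v _ ha hb hb1 hc hc1 hc2, sat_hole,
    (hR _ (upd3 (upd3 (upd3 hv (by norm_num) _) (by norm_num) _) (by norm_num) _)).2,
    update_self, update_of_ne (by norm_num : (0 : ℕ) ≠ 2),
    update_of_ne (by norm_num : (0 : ℕ) ≠ 1), update_self,
    update_of_ne (by norm_num : (1 : ℕ) ≠ 2), update_self]

lemma s_cE1 (hR : Rep O t h M) {v : ℕ → K} (hv : v 3 = t) {a b : ℕ} (ha : a ≠ 0) (hb : b ≠ 0)
    (hb1 : b ≠ 1) (ha' : a ≠ 29) (hb' : b ≠ 29) :
    Sat O ((Tp.cE1 a b).inst h) v ↔ M.E (v a) (v b) 1 := by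
  simp only [Tp.cE1, sat_ex, sat_and, sat_isO, update_self]
  constructor
  · rintro ⟨x, rfl, hx⟩
    rw [s_cE hR (upd3 hv (by norm_num) _) ha hb hb1 (by norm_num) (by norm_num) (by norm_num),
      update_self, update_of_ne ha', update_of_ne hb'] at hx
    exact hx
  · intro hx
    refine ⟨1, rfl, ?_⟩
    rw [s_cE hR (upd3 hv (by norm_num) _) ha hb hb1 (by norm_num) (by norm_num) (by norm_num),
      update_self, update_of_ne ha', update_of_ne hb']
    exact hx

lemma s_cFst (hR : Rep O t h M) {v : ℕ → K} (hv : v 3 = t) {a : ℕ} (ha : a ≠ 0) (ha1 : a ≠ 1)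
    (ha' : a ≠ 18) :
    Sat O ((Tp.cFst a).inst h) v ↔ Fst M (v a) := by
  have n18 : (18 : ℕ) ≠ 0 := by norm_num
  simp only [Tp.cFst, Fst, sat_and, sat_neg, sat_ex, s_cD hR hv ha]
  refine and_congr_right fun _ => not_congr (exists_congr fun x => ?_)
  rw [s_cD hR (upd3 hv (by norm_num) _) n18,
    s_cL hR (upd3 hv (by norm_num) _) n18 ha ha1, update_self, update_of_ne ha']

lemma s_cSuc (hR : Rep O t h M) {v : ℕ → K} (hv : v 3 = t) {a b : ℕ} (ha : a ≠ 0) (hb : b ≠ 0)
    (hb1 : b ≠ 1) (ha' : a ≠ 18) (hb' : b ≠ 18) :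
    Sat O ((Tp.cSuc a b).inst h) v ↔ Suc M (v a) (v b) := by
  have n18 : (18 : ℕ) ≠ 0 := by norm_num
  have n18' : (18 : ℕ) ≠ 1 := by norm_num
  simp only [Tp.cSuc, Suc, sat_and, sat_neg, sat_ex, s_cD hR hv ha, s_cD hR hv hb,
    s_cL hR hv ha hb hb1]
  refine and_congr_right fun _ => and_congr_right fun _ => and_congr_right fun _ =>
    not_congr (exists_congr fun x => ?_)
  rw [s_cD hR (upd3 hv (by norm_num) _) n18,
    s_cL hR (upd3 hv (by norm_num) _) ha n18 n18',
    s_cL hR (upd3 hv (by norm_num) _) n18 hb hb1, update_self, update_of_ne ha',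
    update_of_ne hb']

lemma s_cNum (hR : Rep O t h M) (j : ℕ) : ∀ {v : ℕ → K}, v 3 = t → ∀ {a : ℕ}, a ≠ 0 → a ≠ 1 →
    a ≠ 18 → a ≠ 30 → (Sat O ((Tp.cNum j a).inst h) v ↔ Num M j (v a)) := by
  induction j with
  | zero =>
    intro v hv a h0 h1 h18 h30
    exact s_cFst hR hv h0 h1 h18
  | succ j ih =>
    intro v hv a h0 h1 h18 h30
    simp only [Tp.cNum, Y924.EL.Num, sat_ex, sat_and, sat_eqv, update_self, update_of_ne h30]
    have key : ∀ x y : K, (Sat O ((Tp.cSuc 31 30).inst h) (update (update v 30 x) 31 y) ↔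
        Suc M y x) := by
      intro x y
      rw [s_cSuc hR (upd3 (upd3 hv (by norm_num) _) (by norm_num) _) (by norm_num) (by norm_num)
        (by norm_num) (by norm_num) (by norm_num), update_self,
        update_of_ne (by norm_num : (30 : ℕ) ≠ 31), update_self]
    have key2 : ∀ x y z : K, (Sat O ((Tp.cNum j 32).inst h)
        (update (update (update v 30 x) 31 y) 32 z) ↔ Num M j z) := by
      intro x y z
      rw [ih (upd3 (upd3 (upd3 hv (by norm_num) _) (by norm_num) _) (by norm_num) _)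
        (by norm_num) (by norm_num) (by norm_num) (by norm_num), update_self]
    have n1 : (31 : ℕ) ≠ 32 := by norm_num
    simp only [key, key2, update_of_ne n1, update_self]
    constructor
    · rintro ⟨x, rfl, y, ⟨z, rfl, hz⟩, hs⟩
      exact ⟨_, hz, hs⟩
    · rintro ⟨y, hy, hs⟩
      exact ⟨_, rfl, y, ⟨y, rfl, hy⟩, hs⟩

lemma s_cMem (hR : Rep O t h M) (hR2 : Rep2 O t h M k) {v : ℕ → K} (hv : v 3 = t)
    {w c x y : ℕ} (hw : 10 ≤ w) (hc : 10 ≤ c) (hx : 10 ≤ x) (hy : 10 ≤ y)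
    (hw' : w ≠ 27 ∧ w ≠ 28 ∧ w ≠ 29) (hc' : c ≠ 27) (hx' : x ≠ 27 ∧ x ≠ 28)
    (hy' : y ≠ 27 ∧ y ≠ 28) (hc'' : c ≠ 28) :
    Sat O ((Tp.cMem w c x y).inst h) v ↔ Mem M 1 (v w) (v c) (v x) (v y) := by
  simp only [Tp.cMem, Mem, sat_ex, sat_and]
  refine exists_congr fun q => exists_congr fun r => ?_
  have e3 := upd3 (upd3 hv (by norm_num : (3 : ℕ) ≠ 27) q) (by norm_num : (3 : ℕ) ≠ 28) r
  rw [s_cP hR2 e3 (by omega) (by omega) (by omega) (by norm_num) (by norm_num) (by norm_num),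
    s_cP hR2 e3 (by omega) (by norm_num) (by norm_num) (by norm_num) (by norm_num)
      (by norm_num),
    s_cE1 hR e3 (by omega) (by norm_num) (by norm_num) hw'.2.2 (by norm_num), update_self,
    update_of_ne hx'.2, update_of_ne hx'.1, update_of_ne hy'.2, update_of_ne hy'.1,
    update_of_ne hc'', update_of_ne hc', update_of_ne hw'.2.1, update_of_ne hw'.1,
    update_of_ne (by norm_num : (27 : ℕ) ≠ 28), update_self]

/-- the meaning of `cRec` -/
def RecR (M : Lev K) (w c x y c1 c2 : K) : Prop :=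
  ∃ z n, PairR M z n x ∧ ((Fst M n ∧ Mem M 1 w c1 z y) ∨
        ∃ k i xk q2 x2, Suc M k n ∧ PairR M z k xk ∧ Mem M 1 w c xk i ∧ PairR M k i q2 ∧
          PairR M z q2 x2 ∧ Mem M 1 w c2 x2 y)

lemma s_cRec (hR : Rep O t h M) (hR2 : Rep2 O t h M k) {v : ℕ → K} (hv : v 3 = t) :
    Sat O (Tp.cRec.inst h) v ↔ RecR M (v 13) (v 40) (v 42) (v 43) (v 46) (v 47) := by
  simp only [Tp.cRec, RecR, sat_ex, sat_and, sat_or]
  refine exists_congr fun z => exists_congr fun n => ?_
  have e3 := upd3 (upd3 hv (by norm_num : (3 : ℕ) ≠ 48) z) (by norm_num : (3 : ℕ) ≠ 49) n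
  refine and_congr ?_ (or_congr (and_congr ?_ ?_) ?_)
  · rw [s_cP hR2 e3 (by norm_num) (by norm_num) (by norm_num) (by norm_num) (by norm_num)
      (by norm_num)]
    simp
  · rw [s_cFst hR e3 (by norm_num) (by norm_num) (by norm_num)]
    simp
  · rw [s_cMem hR hR2 e3 (by norm_num) (by norm_num) (by norm_num) (by norm_num) (by norm_num)
      (by norm_num) (by norm_num) (by norm_num) (by norm_num)]
    simp
  · refine exists_congr fun k' => exists_congr fun i => exists_congr fun xk =>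
      exists_congr fun q2 => exists_congr fun x2 => ?_
    have e4 := upd3 (upd3 (upd3 (upd3 (upd3 e3 (by norm_num : (3 : ℕ) ≠ 50) k')
      (by norm_num : (3 : ℕ) ≠ 51) i) (by norm_num : (3 : ℕ) ≠ 52) xk)
      (by norm_num : (3 : ℕ) ≠ 53) q2) (by norm_num : (3 : ℕ) ≠ 54) x2
    refine and_congr ?_ (and_congr ?_ (and_congr ?_ (and_congr ?_ (and_congr ?_ ?_))))
    · rw [s_cSuc hR e4 (by norm_num) (by norm_num) (by norm_num) (by norm_num) (by norm_num)]
      simp
    · rw [s_cP hR2 e4 (by norm_num) (by norm_num) (by norm_num) (by norm_num) (by norm_num)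
        (by norm_num)]
      simp
    · rw [s_cMem hR hR2 e4 (by norm_num) (by norm_num) (by norm_num) (by norm_num)
        (by norm_num) (by norm_num) (by norm_num) (by norm_num) (by norm_num)]
      simp
    · rw [s_cP hR2 e4 (by norm_num) (by norm_num) (by norm_num) (by norm_num) (by norm_num)
        (by norm_num)]
      simp
    · rw [s_cP hR2 e4 (by norm_num) (by norm_num) (by norm_num) (by norm_num) (by norm_num)
        (by norm_num)]
      simp
    · rw [s_cMem hR hR2 e4 (by norm_num) (by norm_num) (by norm_num) (by norm_num)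
        (by norm_num) (by norm_num) (by norm_num) (by norm_num) (by norm_num)]
      simp

/-- the meaning of `cCases` -/
def CasesR (M : Lev K) (w c x y g c1 c2 : K) : Prop :=
  (Y924.EL.Num M 0 g ∧ Fst M y) ∨ (Y924.EL.Num M 1 g ∧ Suc M x y) ∨
      (Y924.EL.Num M 2 g ∧ ∃ v, PairR M y v x) ∨
      (Y924.EL.Num M 3 g ∧ ∃ v, PairR M v y x) ∨
      (Y924.EL.Num M 4 g ∧ ∃ a b, Mem M 1 w c1 x a ∧ Mem M 1 w c2 x b ∧ PairR M a b y) ∨
      (Y924.EL.Num M 5 g ∧ ∃ a, Mem M 1 w c2 x a ∧ Mem M 1 w c1 a y) ∨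
      (Y924.EL.Num M 6 g ∧ RecR M w c x y c1 c2)

lemma s_cCases (hR : Rep O t h M) (hR2 : Rep2 O t h M k) {v : ℕ → K} (hv : v 3 = t) :
    Sat O (Tp.cCases.inst h) v ↔
      CasesR M (v 13) (v 40) (v 42) (v 43) (v 44) (v 46) (v 47) := by
  have hN : ∀ j, Sat O ((Tp.cNum j 44).inst h) v ↔ Y924.EL.Num M j (v 44) := fun j =>
    s_cNum hR j hv (by norm_num) (by norm_num) (by norm_num) (by norm_num)
  simp only [Tp.cCases, CasesR, sat_ex, sat_and, sat_or, hN, s_cRec hR hR2 hv]
  refine or_congr (and_congr_right fun _ => ?_) (or_congr (and_congr_right fun _ => ?_)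
    (or_congr (and_congr_right fun _ => ?_) (or_congr (and_congr_right fun _ => ?_)
    (or_congr (and_congr_right fun _ => ?_) (or_congr (and_congr_right fun _ => ?_) Iff.rfl)))))
  · exact s_cFst hR hv (by norm_num) (by norm_num) (by norm_num)
  · exact s_cSuc hR hv (by norm_num) (by norm_num) (by norm_num) (by norm_num) (by norm_num)
  · refine exists_congr fun z => ?_
    rw [s_cP hR2 (upd3 hv (by norm_num) _) (by norm_num) (by norm_num) (by norm_num)
      (by norm_num) (by norm_num) (by norm_num)]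
    simp
  · refine exists_congr fun z => ?_
    rw [s_cP hR2 (upd3 hv (by norm_num) _) (by norm_num) (by norm_num) (by norm_num)
      (by norm_num) (by norm_num) (by norm_num)]
    simp
  · refine exists_congr fun z => exists_congr fun n => ?_
    have e3 := upd3 (upd3 hv (by norm_num : (3 : ℕ) ≠ 48) z) (by norm_num : (3 : ℕ) ≠ 49) n
    refine and_congr ?_ (and_congr ?_ ?_)
    · rw [s_cMem hR hR2 e3 (by norm_num) (by norm_num) (by norm_num) (by norm_num)
        (by norm_num) (by norm_num) (by norm_num) (by norm_num) (by norm_num)]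
      simp
    · rw [s_cMem hR hR2 e3 (by norm_num) (by norm_num) (by norm_num) (by norm_num)
        (by norm_num) (by norm_num) (by norm_num) (by norm_num) (by norm_num)]
      simp
    · rw [s_cP hR2 e3 (by norm_num) (by norm_num) (by norm_num)
        (by norm_num) (by norm_num) (by norm_num)]
      simp
  · refine exists_congr fun z => ?_
    have e3 := upd3 hv (by norm_num : (3 : ℕ) ≠ 48) z
    refine and_congr ?_ ?_
    · rw [s_cMem hR hR2 e3 (by norm_num) (by norm_num) (by norm_num) (by norm_num)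
        (by norm_num) (by norm_num) (by norm_num) (by norm_num) (by norm_num)]
      simp
    · rw [s_cMem hR hR2 e3 (by norm_num) (by norm_num) (by norm_num) (by norm_num)
        (by norm_num) (by norm_num) (by norm_num) (by norm_num) (by norm_num)]
      simp

lemma s_cJust (hR : Rep O t h M) (hR2 : Rep2 O t h M k) {v : ℕ → K} (hv : v 3 = t) :
    Sat O (Tp.cJust.inst h) v ↔ JustR M 1 (v 13) (v 14) := by
  simp only [Tp.cJust, JustR, sat_ex, sat_and]
  refine exists_congr fun c => exists_congr fun q => exists_congr fun x =>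
    exists_congr fun y => exists_congr fun g => exists_congr fun c' => exists_congr fun c1 =>
    exists_congr fun c2 => ?_
  have e4 := upd3 (upd3 (upd3 (upd3 (upd3 (upd3 (upd3 (upd3 hv
      (by norm_num : (3 : ℕ) ≠ 40) c)
      (by norm_num : (3 : ℕ) ≠ 41) q) (by norm_num : (3 : ℕ) ≠ 42) x)
      (by norm_num : (3 : ℕ) ≠ 43) y) (by norm_num : (3 : ℕ) ≠ 44) g)
      (by norm_num : (3 : ℕ) ≠ 45) c') (by norm_num : (3 : ℕ) ≠ 46) c1)
      (by norm_num : (3 : ℕ) ≠ 47) c2
  refine and_congr ?_ (and_congr ?_ (and_congr ?_ (and_congr ?_ ?_)))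
  · rw [s_cP hR2 e4 (by norm_num) (by norm_num) (by norm_num)
        (by norm_num) (by norm_num) (by norm_num)]
    simp
  · rw [s_cP hR2 e4 (by norm_num) (by norm_num) (by norm_num)
        (by norm_num) (by norm_num) (by norm_num)]
    simp
  · rw [s_cP hR2 e4 (by norm_num) (by norm_num) (by norm_num)
        (by norm_num) (by norm_num) (by norm_num)]
    simp
  · rw [s_cP hR2 e4 (by norm_num) (by norm_num) (by norm_num)
        (by norm_num) (by norm_num) (by norm_num)]
    simp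
  · rw [s_cCases hR hR2 e4]
    simp only [CasesR, RecR]
    simp

lemma s_cUni (hR : Rep O t h M) (hR2 : Rep2 O t h M k) {v : ℕ → K} (hv : v 3 = t) :
    Sat O (Tp.cUni.inst h) v ↔ Uni M 1 (v 10) (v 11) (v 12) := by
  simp only [Tp.cUni, Uni, sat_ex, sat_and, sat_all, sat_imp]
  refine exists_congr fun w => and_congr (forall_congr' fun s => ?_) ?_
  · have e3 := upd3 (upd3 hv (by norm_num : (3 : ℕ) ≠ 13) w) (by norm_num : (3 : ℕ) ≠ 14) s
    rw [s_cD hR e3 (by norm_num), s_cE1 hR e3 (by norm_num) (by norm_num) (by norm_num)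
      (by norm_num) (by norm_num), s_cJust hR hR2 e3]
    simp
  · have e3 := upd3 hv (by norm_num : (3 : ℕ) ≠ 13) w
    rw [s_cMem hR hR2 e3 (by norm_num) (by norm_num) (by norm_num) (by norm_num)
        (by norm_num) (by norm_num) (by norm_num) (by norm_num) (by norm_num)]
    simp

end

end SEMB

open SEMB in
/-- the meaning of the body -/
theorem t_SEMB : S_SEMB := by
  intro K _ O t h M k hR hR2 v hv
  simp only [Tp.Body, sat_ex, sat_and]
  have key : ∀ n c r y : K,
      ((Sat O ((Tp.cA 11).inst h) (update v 11 n)) ↔ Y924.EL.Num M k n) ∧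
      ((Sat O ((Tp.cP 10 15 11).inst h) (update (update (update v 11 n) 10 c) 15 r)) ↔
        PairR M c r n) ∧
      ((Sat O ((Tp.cNum 1 12).inst h)
        (update (update (update (update v 11 n) 10 c) 15 r) 12 y)) ↔ Y924.EL.Num M 1 y) ∧
      ((Sat O (Tp.cUni.inst h)
        (update (update (update (update v 11 n) 10 c) 15 r) 12 y)) ↔ Uni M 1 c n y) := by
    intro n c r y
    have e1 := upd3 hv (by norm_num : (3 : ℕ) ≠ 11) n
    have e2 := upd3 (upd3 e1 (by norm_num : (3 : ℕ) ≠ 10) c) (by norm_num : (3 : ℕ) ≠ 15) r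
    have e3 := upd3 e2 (by norm_num : (3 : ℕ) ≠ 12) y
    refine ⟨?_, ?_, ?_, ?_⟩
    · rw [s_cA hR2 e1 (by norm_num)]
      simp
    · rw [s_cP hR2 e2 (by norm_num) (by norm_num) (by norm_num)
        (by norm_num) (by norm_num) (by norm_num)]
      simp
    · rw [s_cNum hR 1 e3 (by norm_num) (by norm_num) (by norm_num) (by norm_num)]
      simp
    · rw [s_cUni hR hR2 e3]
      simp
  constructor
  · rintro ⟨n, hn, c, r, hp, y, hy, hu⟩
    exact ⟨n, c, r, y, (key n c r y).1.1 hn, (key n c r y).2.1.1 hp,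
      (key n c r y).2.2.1.1 hy, (key n c r y).2.2.2.1 hu⟩
  · rintro ⟨n, c, r, y, hn, hp, hy, hu⟩
    exact ⟨n, (key n c r y).1.2 hn, c, r, (key n c r y).2.1.2 hp, y,
      (key n c r y).2.2.1.2 hy, (key n c r y).2.2.2.2 hu⟩

end Pool.Agent.R621.EL
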