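import Pool.Agent.R621.EL.SemL

/-! # Meaning of the first level, and injectivity -/

set_option autoImplicit false

namespace Pool.Agent.R621.EL

open Pool.Agent.Y924.EL Function

theorem t_SEM0 : S_SEM0 := by
  intro K _ O p t v hv
  have hJ : ∀ (u : ℕ → K), u 3 = t → ∀ {a b c : ℕ}, 10 ≤ a → 10 ≤ b → 10 ≤ c →
      (Sat O ((Tp.cJ p a b c).inst fun _ => .one 0) u ↔ JJ p t (u a) (u b) = u c) :=
    fun u hu a b c ha hb hc => s_cJ p hu ha hb hc
  refine ⟨?_, ?_, ?_⟩
  · show Sat O (Tp.D0.inst fun _ => .one 0) v ↔ _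
    simp only [Tp.D0, sat_arg1, sat_or, sat_isZ, sat_isO, update_self, lev0]
  · show Sat O (Tp.L0.inst fun _ => .one 0) v ↔ _
    simp only [Tp.L0, sat_arg2, sat_and, sat_isZ, sat_isO, lev0]
    simp
  · show Sat O ((Tp.E0 p).inst fun _ => .one 0) v ↔ _
    have h3 : ∀ x y z w, update (update (update (update v 10 x) 11 y) 12 z) 13 w 3 = t :=
      fun x y z w => by
        rw [update_of_ne (by norm_num), update_of_ne (by norm_num), update_of_ne (by norm_num),
          update_of_ne (by norm_num)]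
        exact hv
    simp only [Tp.E0, sat_arg3, sat_or, sat_and, sat_ex, sat_isZ, sat_isO, lev0,
      hJ _ (h3 _ _ _ _) (show 10 ≤ 12 by norm_num) (show 10 ≤ 13 by norm_num)
        (show 10 ≤ 10 by norm_num),
      hJ _ (h3 _ _ _ _) (show 10 ≤ 13 by norm_num) (show 10 ≤ 12 by norm_num)
        (show 10 ≤ 10 by norm_num)]
    simp

theorem t_SEMI : S_SEMI := by
  intro K _ O p t h v hv
  have h3 : ∀ a b c d e, update (update (update (update (update v 10 a) 11 b) 12 c) 13 d) 14 e 3
      = t := fun a b c d e => by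
    rw [update_of_ne (by norm_num), update_of_ne (by norm_num), update_of_ne (by norm_num),
      update_of_ne (by norm_num), update_of_ne (by norm_num)]
    exact hv
  simp only [Tp.InjT, sat_all, sat_imp, sat_and, sat_eqv,
    s_cJ p (h3 _ _ _ _ _) (show 10 ≤ 10 by norm_num) (show 10 ≤ 11 by norm_num)
      (show 10 ≤ 14 by norm_num),
    s_cJ p (h3 _ _ _ _ _) (show 10 ≤ 12 by norm_num) (show 10 ≤ 13 by norm_num)
      (show 10 ≤ 14 by norm_num)]
  simp only [update_self, ne_eq, Nat.reduceEqDiff, not_false_eq_true, update_of_ne, Inj2]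
  constructor
  · intro hh x y x' y' h1
    exact hh x y x' y' _ h1 rfl
  · intro hh x y x' y' z h1 h2
    exact hh x y x' y' (h1.trans h2.symm)

end Pool.Agent.R621.EL
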