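import Pool.Agent.R621.EL.SemL

/-!
# Meaning of the next level (project EL, MP_db9079_lc)
-/

set_option autoImplicit false

namespace Pool.Agent.R621.EL

open Pool.Agent.Y924.EL Function

theorem t_SEM1 : S_SEM1 := by
  intro K _ O p t h M hR v hv
  refine ⟨?_, ?_, ?_⟩
  · show Sat O (Tp.D1.inst h) v ↔ _
    have h3 : ∀ x y, update (update v 10 x) 11 y 3 = t := fun x y => by
      rw [update_of_ne (by norm_num), update_of_ne (by norm_num)]; exact hv
    simp only [Tp.D1, sat_arg1, sat_all, sat_imp, sat_or,
      s_cD hR (h3 _ _) (show 10 ≤ 11 by norm_num),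
      s_cE0 hR (h3 _ _) (show 10 ≤ 10 by norm_num) (show 10 ≤ 11 by norm_num)
        (show 10 ≠ 29 by norm_num) (show 11 ≠ 29 by norm_num),
      s_cE1 hR (h3 _ _) (show 10 ≤ 10 by norm_num) (show 10 ≤ 11 by norm_num)
        (show 10 ≠ 29 by norm_num) (show 11 ≠ 29 by norm_num), nextLev]
    simp
  · show Sat O (Tp.L1.inst h) v ↔ _
    have h3 : ∀ x y z, update (update (update v 10 x) 11 y) 12 z 3 = t := fun x y z => by
      rw [update_of_ne (by norm_num), update_of_ne (by norm_num), update_of_ne (by norm_num)]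
      exact hv
    have h4 : ∀ x y z w, update (update (update (update v 10 x) 11 y) 12 z) 13 w 3 = t :=
      fun x y z w => by rw [update_of_ne (by norm_num)]; exact h3 x y z
    simp only [Tp.L1, sat_arg2, sat_ex, sat_and, sat_all, sat_imp, sat_or,
      s_cD hR (h3 _ _ _) (show 10 ≤ 12 by norm_num),
      s_cD hR (h4 _ _ _ _) (show 10 ≤ 13 by norm_num),
      s_cL hR (h4 _ _ _ _) (show 10 ≤ 13 by norm_num) (show 10 ≤ 12 by norm_num),
      s_cE0 hR (h3 _ _ _) (show 10 ≤ 10 by norm_num) (show 10 ≤ 12 by norm_num)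
        (show 10 ≠ 29 by norm_num) (show 12 ≠ 29 by norm_num),
      s_cE1 hR (h3 _ _ _) (show 10 ≤ 11 by norm_num) (show 10 ≤ 12 by norm_num)
        (show 11 ≠ 29 by norm_num) (show 12 ≠ 29 by norm_num),
      s_cE0 hR (h4 _ _ _ _) (show 10 ≤ 10 by norm_num) (show 10 ≤ 13 by norm_num)
        (show 10 ≠ 29 by norm_num) (show 13 ≠ 29 by norm_num),
      s_cE0 hR (h4 _ _ _ _) (show 10 ≤ 11 by norm_num) (show 10 ≤ 13 by norm_num)
        (show 11 ≠ 29 by norm_num) (show 13 ≠ 29 by norm_num),
      s_cE1 hR (h4 _ _ _ _) (show 10 ≤ 10 by norm_num) (show 10 ≤ 13 by norm_num)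
        (show 10 ≠ 29 by norm_num) (show 13 ≠ 29 by norm_num),
      s_cE1 hR (h4 _ _ _ _) (show 10 ≤ 11 by norm_num) (show 10 ≤ 13 by norm_num)
        (show 11 ≠ 29 by norm_num) (show 13 ≠ 29 by norm_num), nextLev]
    simp
  · show Sat O ((Tp.E1 p).inst h) v ↔ _
    set a3 : K → K → K → ℕ → K := fun x y z => update (update (update v 10 x) 11 y) 12 z
      with ha3
    have h3 : ∀ x y z, a3 x y z 3 = t := fun x y z => by
      rw [ha3]
      show update (update (update v 10 x) 11 y) 12 z 3 = t
      rw [update_of_ne (by norm_num), update_of_ne (by norm_num), update_of_ne (by norm_num)]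
      exact hv
    have h4 : ∀ (u : ℕ → K) (k : ℕ) (x : K), u 3 = t → 10 ≤ k → update u k x 3 = t := by
      intro u k x hu hk
      rw [update_of_ne (by omega)]; exact hu
    have e0 := h3 (v 0) (v 1) (v 2)
    rw [Tp.E1, sat_arg3]
    change Sat O _ (a3 (v 0) (v 1) (v 2)) ↔ ∃ w, _
    rw [sat_ex]
    apply exists_congr
    intro w
    have e1 := h4 _ 13 w e0 (by norm_num)
    rw [sat_and, sat_and]
    refine and_congr ?_ (and_congr ?_ ?_)
    · rw [sat_all]
      apply forall_congr'
      intro i
      have e2 := h4 _ 14 i e1 (by norm_num)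
      rw [sat_imp, s_cFst hR e2 (by norm_num) (by norm_num),
        s_cE hR e2 (by norm_num) (by norm_num) (by norm_num)]
      simp [ha3]
    · rw [sat_all]
      apply forall_congr'
      intro i
      have e2 := h4 _ 14 i e1 (by norm_num)
      rw [sat_all]
      apply forall_congr'
      intro j
      have e3 := h4 _ 15 j e2 (by norm_num)
      rw [sat_imp, s_cSuc hR e3 (by norm_num) (by norm_num) (by norm_num) (by norm_num)]
      refine imp_congr ?_ ?_
      · simp
      rw [sat_ex]
      apply exists_congr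
      intro x
      have e4 := h4 _ 16 x e3 (by norm_num)
      rw [sat_ex]
      apply exists_congr
      intro y
      have e5 := h4 _ 17 y e4 (by norm_num)
      rw [sat_and, sat_and, s_cE hR e5 (by norm_num) (by norm_num) (by norm_num),
        s_cE hR e5 (by norm_num) (by norm_num) (by norm_num),
        s_cCh hR p e5 (by norm_num) (by norm_num) (by norm_num) (by norm_num) (by norm_num)
          (by norm_num) (by norm_num) (by norm_num) (by norm_num) (by norm_num)]
      simp [ha3]
    · rw [sat_all]
      apply forall_congr'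
      intro i
      have e2 := h4 _ 14 i e1 (by norm_num)
      rw [sat_imp, s_cLst hR e2 (by norm_num) (by norm_num)]
      refine imp_congr ?_ ?_
      · simp
      rw [sat_ex]
      apply exists_congr
      intro x
      have e4 := h4 _ 16 x e2 (by norm_num)
      rw [sat_and, s_cE hR e4 (by norm_num) (by norm_num) (by norm_num),
        s_cCh hR p e4 (by norm_num) (by norm_num) (by norm_num) (by norm_num) (by norm_num)
          (by norm_num) (by norm_num) (by norm_num) (by norm_num) (by norm_num)]
      simp [ha3]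

end Pool.Agent.R621.EL
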