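import Pool.Agent.Y924.EL.Sem

/-! # Meaning of the templates for numbers and for the pairing relation -/

set_option autoImplicit false

namespace Pool.Agent.R621.EL

open Function Pool.Agent.Y924.EL

namespace SemA

variable {K : Type} [CommRing K] {O : Set K} {t : K} {h : Fin 5 → Fm} {M : Lev K}

lemma cD (hR : Rep O t h M) {v : ℕ → K} (hv : v 3 = t) {a : ℕ} (ha : 10 ≤ a) :
    Sat O ((Tp.cD a).inst h) v ↔ M.D (v a) := by
  rw [Tp.cD, sat_call1 O h v _ (by omega), sat_hole, (hR _ ?_).1, update_self]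
  rw [update_of_ne (by omega), hv]

lemma cL (hR : Rep O t h M) {v : ℕ → K} (hv : v 3 = t) {a b : ℕ} (ha : 10 ≤ a) (hb : 10 ≤ b) :
    Sat O ((Tp.cL a b).inst h) v ↔ M.L (v a) (v b) := by
  rw [Tp.cL, sat_call2 O h v _ (by omega) (by omega) (by omega), sat_hole, (hR _ ?_).2.1,
    update_self, update_of_ne (by omega), update_self]
  rw [update_of_ne (by omega), update_of_ne (by omega), hv]

lemma cE (hR : Rep O t h M) {v : ℕ → K} (hv : v 3 = t) {a b c : ℕ} (ha : 10 ≤ a) (hb : 10 ≤ b)
    (hc : 10 ≤ c) : Sat O ((Tp.cE a b c).inst h) v ↔ M.E (v a) (v b) (v c) := by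
  rw [Tp.cE, sat_call3 O h v _ (by omega) (by omega) (by omega) (by omega) (by omega) (by omega),
    sat_hole, (hR _ ?_).2.2, update_self, update_of_ne (by omega), update_of_ne (by omega),
    update_self, update_of_ne (by omega), update_self]
  rw [update_of_ne (by omega), update_of_ne (by omega), update_of_ne (by omega), hv]

omit [CommRing K] in
lemma u3 {v : ℕ → K} (hv : v 3 = t) {i : ℕ} (hi : 10 ≤ i) (x : K) : update v i x 3 = t := by
  rw [update_of_ne (by omega), hv]

lemma cFst (hR : Rep O t h M) {v : ℕ → K} (hv : v 3 = t) {a : ℕ} (ha : 10 ≤ a) (ha' : a ≠ 18) :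
    Sat O ((Tp.cFst a).inst h) v ↔ Fst M (v a) := by
  rw [Tp.cFst, sat_and, sat_neg, sat_ex, cD hR hv ha, Fst]
  refine and_congr Iff.rfl (not_congr (exists_congr fun x => ?_))
  have h3 := u3 hv (i := 18) (by omega) x
  rw [sat_and, cD hR h3 (by omega), cL hR h3 (by omega) ha, update_self, update_of_ne ha']

lemma cSuc (hR : Rep O t h M) {v : ℕ → K} (hv : v 3 = t) {a b : ℕ} (ha : 10 ≤ a) (ha' : a ≠ 18)
    (hb : 10 ≤ b) (hb' : b ≠ 18) : Sat O ((Tp.cSuc a b).inst h) v ↔ Suc M (v a) (v b) := by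
  rw [Tp.cSuc, sat_and, sat_and, sat_and, sat_neg, sat_ex, cD hR hv ha, cD hR hv hb,
    cL hR hv ha hb, Suc]
  refine and_congr Iff.rfl (and_congr Iff.rfl (and_congr Iff.rfl
    (not_congr (exists_congr fun x => ?_))))
  have h3 := u3 hv (i := 18) (by omega) x
  rw [sat_and, sat_and, cD hR h3 (by omega), cL hR h3 ha (by omega), cL hR h3 (by omega) hb,
    update_self, update_of_ne ha', update_of_ne hb']

lemma cNxt (hR : Rep O t h M) {v : ℕ → K} (hv : v 3 = t) {a b c d : ℕ} (ha : 20 ≤ a)
    (hb : 20 ≤ b) (hc : 20 ≤ c) (hd : 20 ≤ d) :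
    Sat O ((Tp.cNxt a b c d).inst h) v ↔ Nxt M (v a) (v b) (v c) (v d) := by
  rw [Tp.cNxt, sat_or, sat_or, sat_or, sat_ex, sat_and, sat_and, sat_and, sat_and, sat_and, sat_and,
    cSuc hR hv (by omega) (by omega) (by omega) (by omega),
    cSuc hR hv (by omega) (by omega) (by omega) (by omega),
    cSuc hR hv (by omega) (by omega) (by omega) (by omega),
    cFst hR hv (by omega) (by omega), cFst hR hv (by omega) (by omega),
    cL hR hv (by omega) (by omega), sat_eqv, sat_eqv, sat_eqv, Nxt]
  refine or_congr (exists_congr fun x => ?_) Iff.rfl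
  have h3 := u3 hv (i := 19) (by omega) x
  rw [sat_and, sat_and, sat_and, cSuc hR h3 (by omega) (by omega) (by omega) (by omega),
    cL hR h3 (by omega) (by omega), sat_eqv, sat_eqv, update_self, update_of_ne (by omega),
    update_of_ne (by omega), update_of_ne (by omega), update_of_ne (by omega)]

lemma P1 (hR : Rep O t h M) {v : ℕ → K} (hv : v 3 = t) :
    Sat O (Tp.P1.inst h) v ↔ PairR M (v 0) (v 1) (v 2) := by
  rw [Tp.P1, sat_arg3]
  obtain ⟨w, hw⟩ : ∃ w, update (update (update v 10 (v 0)) 11 (v 1)) 12 (v 2) = w := ⟨_, rfl⟩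
  have h10 : w 10 = v 0 := by rw [← hw]; simp
  have h11 : w 11 = v 1 := by rw [← hw]; simp
  have h12 : w 12 = v 2 := by rw [← hw]; simp
  have h3 : w 3 = t := by rw [← hw]; simp [hv]
  rw [hw, sat_and, cD hR h3 (by omega), sat_ex, h12, PairR]
  refine and_congr Iff.rfl (exists_congr fun s => ?_)
  rw [sat_ex]
  refine exists_congr fun r => ?_
  have hsr := u3 (u3 h3 (i := 13) (by omega) s) (i := 14) (by omega) r
  rw [sat_and, sat_and, sat_and, sat_all, sat_all, cE hR hsr (by omega) (by omega) (by omega),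
    cE hR hsr (by omega) (by omega) (by omega)]
  refine and_congr (forall_congr' fun i => ?_) (and_congr (forall_congr' fun i => ?_) ?_)
  · have hi := u3 hsr (i := 15) (by omega) i
    rw [sat_imp, sat_and, cFst hR hi (by omega) (by omega), cE hR hi (by omega) (by omega) (by omega),
      cE hR hi (by omega) (by omega) (by omega)]
    simp
  · rw [sat_all]
    refine forall_congr' fun j => ?_
    have hij := u3 (u3 hsr (i := 15) (by omega) i) (i := 16) (by omega) j
    rw [sat_imp, cSuc hR hij (by omega) (by omega) (by omega) (by omega), sat_ex]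
    refine imp_congr (by simp) (exists_congr fun x => ?_)
    rw [sat_ex]
    refine exists_congr fun y => ?_
    rw [sat_ex]
    refine exists_congr fun x' => ?_
    rw [sat_ex]
    refine exists_congr fun y' => ?_
    have hu := u3 (u3 (u3 (u3 hij (i := 20) (by omega) x) (i := 21) (by omega) y) (i := 22)
      (by omega) x') (i := 23) (by omega) y'
    rw [sat_and, sat_and, sat_and, sat_and, cE hR hu (by omega) (by omega) (by omega),
      cE hR hu (by omega) (by omega) (by omega), cE hR hu (by omega) (by omega) (by omega),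
      cE hR hu (by omega) (by omega) (by omega),
      cNxt hR hu (by omega) (by omega) (by omega) (by omega)]
    simp
  · simp [h10, h11, h12]

end SemA

theorem t_SEMA0 : S_SEMA0 := by
  intro K _ O t h M hR
  refine ⟨fun v hv => hR v hv, fun v hv => ⟨?_, ?_⟩⟩
  · show Sat O (Tp.A0.inst h) v ↔ Num M 0 (v 0)
    rw [Tp.A0, sat_arg1, SemA.cFst hR (SemA.u3 hv (by omega) _) (by omega) (by omega), update_self]
    exact Iff.rfl
  · show Sat O (Tp.P1.inst h) v ↔ _
    exact SemA.P1 hR hv

theorem t_SEMA1 : S_SEMA1 := by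
  intro K _ O t h M k hR hR2
  refine ⟨fun v hv => hR v hv, fun v hv => ⟨?_, ?_⟩⟩
  · show Sat O (Tp.A1.inst h) v ↔ Num M (k + 1) (v 0)
    rw [Tp.A1, sat_arg1, sat_ex]
    show _ ↔ ∃ g, Pool.Agent.Y924.EL.Num M k g ∧ Suc M g (v 0)
    refine exists_congr fun x => ?_
    have h3 := SemA.u3 (SemA.u3 hv (i := 10) (by omega) (v 0)) (i := 11) (by omega) x
    rw [sat_and, SemA.cSuc hR h3 (by omega) (by omega) (by omega) (by omega), Tp.cA,
      sat_call1 O h _ _ (by omega), sat_hole, (hR2 _ ?_).1]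
    · simp
    · rw [update_of_ne (by omega), h3]
  · show Sat O (h 4) v ↔ _
    exact (hR2 v hv).2

end Pool.Agent.R621.EL
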