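import Pool.Agent.Y924.EL.Sem
import Pool.Agent.Y924.EL.Stm2

/-!
# Syntax of the sentences (project EL, part SYN): closedness, 64 variables, growth of codes
-/

set_option autoImplicit false

namespace Pool.Agent.R621.EL

open Pool.Agent.Y924.EL

/-- templates with an additional hole for the pairing formula -/
inductive T6 : Type
  | hole (i : Fin 5)
  | jf
  | atom (φ : Fm)
  | neg (τ : T6)
  | and (τ υ : T6)
  | ex (i : ℕ) (τ : T6)

/-- filling the additional hole -/
def T6.sub (χ : Fm) : T6 → Tp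
  | .hole i => .hole i
  | .jf => .atom χ
  | .atom φ => .atom φ
  | .neg τ => .neg (τ.sub χ)
  | .and τ υ => .and (τ.sub χ) (υ.sub χ)
  | .ex i τ => .ex i (τ.sub χ)

namespace T6

def or (τ υ : T6) : T6 := .neg (.and (.neg τ) (.neg υ))
def imp (τ υ : T6) : T6 := .neg (.and τ (.neg υ))
def all (i : ℕ) (τ : T6) : T6 := .neg (.ex i (.neg τ))

def isZ (i : ℕ) : T6 := .atom (.add i i i)
def isO (i : ℕ) : T6 := .atom (.one i)
def eqv (i j : ℕ) : T6 := .atom (.eq i j)

def call1 (P : T6) (a : ℕ) : T6 := .ex 0 (.and (eqv 0 a) P)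
def call2 (P : T6) (a b : ℕ) : T6 := .ex 0 (.and (eqv 0 a) (.ex 1 (.and (eqv 1 b) P)))
def call3 (P : T6) (a b c : ℕ) : T6 :=
  .ex 0 (.and (eqv 0 a) (.ex 1 (.and (eqv 1 b) (.ex 2 (.and (eqv 2 c) P)))))

def arg1 (P : T6) : T6 := .ex 10 (.and (eqv 10 0) P)
def arg2 (P : T6) : T6 := .ex 10 (.and (eqv 10 0) (.ex 11 (.and (eqv 11 1) P)))
def arg3 (P : T6) : T6 :=
  .ex 10 (.and (eqv 10 0) (.ex 11 (.and (eqv 11 1) (.ex 12 (.and (eqv 12 2) P)))))

def cD (a : ℕ) : T6 := call1 (.hole 0) a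
def cL (a b : ℕ) : T6 := call2 (.hole 1) a b
def cE (a b c : ℕ) : T6 := call3 (.hole 2) a b c
def cA (a : ℕ) : T6 := call1 (.hole 3) a
def cP (a b c : ℕ) : T6 := call3 (.hole 4) a b c


def cJ (a b c : ℕ) : T6 := call3 .jf a b c

def cE0 (a b : ℕ) : T6 := .ex 29 (.and (isZ 29) (cE a b 29))
def cE1 (a b : ℕ) : T6 := .ex 29 (.and (isO 29) (cE a b 29))

def cFst (a : ℕ) : T6 := .and (cD a) (.neg (.ex 18 (.and (cD 18) (cL 18 a))))
def cLst (a : ℕ) : T6 := .and (cD a) (.neg (.ex 18 (.and (cD 18) (cL a 18))))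
def cSuc (a b : ℕ) : T6 :=
  .and (cD a) (.and (cD b) (.and (cL a b)
    (.neg (.ex 18 (.and (cD 18) (.and (cL a 18) (cL 18 b)))))))

def cCh (a i x y : ℕ) : T6 :=
  .ex 19 (or (.and (cE0 a i) (cJ y 19 x)) (.and (cE1 a i) (cJ 19 y x)))

def D0 : T6 := arg1 (or (isZ 10) (isO 10))
def L0 : T6 := arg2 (.and (isZ 10) (isO 11))
def E0 : T6 :=
  arg3 (or (.and (isZ 11) (.ex 13 (cJ 12 13 10))) (.and (isO 11) (.ex 13 (cJ 13 12 10))))

def D1 : T6 := arg1 (all 11 (imp (cD 11) (or (cE0 10 11) (cE1 10 11))))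
def L1 : T6 :=
  arg2 (.ex 12 (.and (cD 12) (.and (cE0 10 12) (.and (cE1 11 12)
    (all 13 (imp (cD 13) (imp (cL 13 12)
      (or (.and (cE0 10 13) (cE0 11 13)) (.and (cE1 10 13) (cE1 11 13))))))))))
def E1 : T6 :=
  arg3 (.ex 13 (.and (all 14 (imp (cFst 14) (cE 13 14 10)))
    (.and (all 14 (all 15 (imp (cSuc 14 15)
        (.ex 16 (.ex 17 (.and (cE 13 14 16) (.and (cE 13 15 17) (cCh 11 14 16 17))))))))
      (all 14 (imp (cLst 14) (.ex 16 (.and (cE 13 14 16) (cCh 11 14 16 12))))))))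

def A0 : T6 := arg1 (cFst 10)
def A1 : T6 := arg1 (.ex 11 (.and (cA 11) (cSuc 11 10)))

def cNxt (x y x' y' : ℕ) : T6 :=
  or (.ex 19 (.and (cSuc x 19) (.and (cL 19 y) (.and (eqv x' 19) (eqv y' y)))))
    (or (.and (cSuc x y) (.and (eqv x' y) (cFst y')))
      (or (.and (cL y x) (.and (eqv x' x) (cSuc y y')))
        (.and (eqv x y) (.and (cFst x') (cSuc x y')))))

def P1 : T6 :=
  arg3 (.and (cD 12) (.ex 13 (.ex 14 (.and
    (all 15 (imp (cFst 15) (.and (cE 13 15 15) (cE 14 15 15))))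
    (.and (all 15 (all 16 (imp (cSuc 15 16) (.ex 20 (.ex 21 (.ex 22 (.ex 23
        (.and (cE 13 15 20) (.and (cE 14 15 21) (.and (cE 13 16 22) (.and (cE 14 16 23)
          (cNxt 20 21 22 23))))))))))))
      (.and (cE 13 12 10) (cE 14 12 11)))))))

def cNum : ℕ → ℕ → T6
  | 0, a => cFst a
  | k + 1, a => .ex 30 (.and (eqv 30 a) (.ex 31 (.and (.ex 32 (.and (eqv 32 31)
      (cNum k 32))) (cSuc 31 30))))

def cMem (w c x y : ℕ) : T6 :=
  .ex 27 (.ex 28 (.and (cP x y 27) (.and (cP c 27 28) (cE1 w 28))))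

def cRec : T6 :=
  .ex 48 (.ex 49 (.and (cP 48 49 42) (or (.and (cFst 49) (cMem 13 46 48 43))
    (.ex 50 (.ex 51 (.ex 52 (.ex 53 (.ex 54 (.and (cSuc 50 49) (.and (cP 48 50 52)
      (.and (cMem 13 40 52 51) (.and (cP 50 51 53) (.and (cP 48 53 54)
        (cMem 13 47 54 43))))))))))))))

def cCases : T6 :=
  or (.and (cNum 0 44) (cFst 43)) (or (.and (cNum 1 44) (cSuc 42 43))
    (or (.and (cNum 2 44) (.ex 48 (cP 43 48 42))) (or (.and (cNum 3 44) (.ex 48 (cP 48 43 42)))
    (or (.and (cNum 4 44) (.ex 48 (.ex 49 (.and (cMem 13 46 42 48) (.and (cMem 13 47 42 49)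
      (cP 48 49 43))))))
    (or (.and (cNum 5 44) (.ex 48 (.and (cMem 13 47 42 48) (cMem 13 46 48 43))))
    (.and (cNum 6 44) cRec))))))

def cJust : T6 :=
  .ex 40 (.ex 41 (.ex 42 (.ex 43 (.ex 44 (.ex 45 (.ex 46 (.ex 47
    (.and (cP 40 41 14) (.and (cP 42 43 41) (.and (cP 44 45 40) (.and (cP 46 47 45)
      cCases)))))))))))

def cUni : T6 :=
  .ex 13 (.and (all 14 (imp (cD 14) (imp (cE1 13 14) cJust))) (cMem 13 10 11 12))

def Body : T6 :=
  .ex 11 (.and (cA 11) (.ex 10 (.ex 15 (.and (cP 10 15 11) (.ex 12 (.and (cNum 1 12) cUni))))))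

def InjT : T6 :=
  all 10 (all 11 (all 12 (all 13 (all 14 (imp (cJ 10 11 14) (imp (cJ 12 13 14)
    (.and (eqv 10 12) (eqv 11 13))))))))

def Fin1 : T6 := .ex 3 (.and InjT Body)


end T6

lemma sub_D0 (p : ℕ) : Tp.D0 = T6.D0.sub (JF p) := rfl
lemma sub_L0 (p : ℕ) : Tp.L0 = T6.L0.sub (JF p) := rfl
lemma sub_E0 (p : ℕ) : Tp.E0 p = T6.E0.sub (JF p) := rfl
lemma sub_D1 (p : ℕ) : Tp.D1 = T6.D1.sub (JF p) := rfl
lemma sub_L1 (p : ℕ) : Tp.L1 = T6.L1.sub (JF p) := rfl
lemma sub_E1 (p : ℕ) : Tp.E1 p = T6.E1.sub (JF p) := rfl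
lemma sub_A0 (p : ℕ) : Tp.A0 = T6.A0.sub (JF p) := rfl
lemma sub_A1 (p : ℕ) : Tp.A1 = T6.A1.sub (JF p) := rfl
lemma sub_P1 (p : ℕ) : Tp.P1 = T6.P1.sub (JF p) := rfl
lemma sub_Fin1 (p : ℕ) : Tp.Fin1 p = T6.Fin1.sub (JF p) := rfl

/-- list of the free variables -/
def fl : Fm → List ℕ
  | .eq i j => [i, j]
  | .one i => [i]
  | .add i j k => [i, j, k]
  | .mul i j k => [i, j, k]
  | .val i => [i]
  | .neg φ => fl φ
  | .and φ ψ => fl φ ++ fl ψ
  | .ex i φ => (fl φ).filter fun x => x != i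

lemma mem_fl (φ : Fm) (x : ℕ) : x ∈ φ.fv ↔ x ∈ fl φ := by
  induction φ with
  | eq i j => simp [Fm.fv, fl]
  | one i => simp [Fm.fv, fl]
  | add i j k => simp [Fm.fv, fl]
  | mul i j k => simp [Fm.fv, fl]
  | val i => simp [Fm.fv, fl]
  | neg φ ih => simpa [Fm.fv, fl] using ih
  | and φ ψ ih1 ih2 => simp [Fm.fv, fl, ih1, ih2]
  | ex i φ ih =>
    simp [Fm.fv, fl, ih]
    tauto

/-- bounds of the free variables in the holes -/
def BL : Fin 5 → List ℕ := ![[0, 3], [0, 1, 3], [0, 1, 2, 3], [0, 3], [0, 1, 2, 3]]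

/-- bound of the free variables of a template -/
def tl : T6 → List ℕ
  | .hole i => BL i
  | .jf => [0, 1, 2, 3]
  | .atom φ => fl φ
  | .neg τ => tl τ
  | .and τ υ => tl τ ++ tl υ
  | .ex i τ => (tl τ).filter fun x => x != i

/-- the holes respect the bounds -/
def Bd (h : Fin 5 → Fm) : Prop := ∀ i, ∀ x ∈ (h i).fv, x ∈ BL i

lemma fv_powF (k : ℕ) : ∀ x ∈ (powF k).fv, x = 4 ∨ x = 5 := by
  induction k with
  | zero =>
    intro x hx
    simp [powF, Fm.fv] at hx
    exact Or.inr hx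
  | succ k ih =>
    intro x hx
    simp only [powF, Fm.fv, Finset.mem_erase, Finset.mem_union, Finset.mem_insert,
      Finset.mem_singleton] at hx
    obtain ⟨h1, h2⟩ := hx
    rcases h2 with ⟨h3, h4 | h4⟩ | h2
    · omega
    · exact ih x h4
    · omega

lemma fv_JF (p : ℕ) : ∀ x ∈ (JF p).fv, x ∈ [0, 1, 2, 3] := by
  intro x hx
  simp only [JF, Fm.fv, Finset.mem_erase, Finset.mem_union, Finset.mem_insert,
    Finset.mem_singleton] at hx
  have h := fv_powF p x
  simp only [List.mem_cons, List.not_mem_nil, or_false]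
  obtain ⟨h1, h2, h3, h4⟩ := hx
  rcases h4 with ⟨h4, h5, h6⟩ | ⟨h4, h5, h6⟩ | h4
  · rcases h6 with h6 | h6 | h6
    · omega
    · omega
    · have := h h6
      omega
  · rcases h6 with h6 | h6 | h6
    · omega
    · omega
    · have := h h6
      omega
  · omega

lemma mem_tl (p : ℕ) (h : Fin 5 → Fm) (hh : Bd h) (τ : T6) (x : ℕ)
    (hx : x ∈ ((τ.sub (JF p)).inst h).fv) : x ∈ tl τ := by
  induction τ with
  | hole i => exact hh i x hx
  | jf => exact fv_JF p x hx
  | atom φ => exact (mem_fl φ x).1 hx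
  | neg τ ih => exact ih hx
  | and τ υ ih1 ih2 =>
    simp only [T6.sub, Tp.inst, Fm.fv, Finset.mem_union] at hx
    simp only [tl, List.mem_append]
    exact hx.imp ih1 ih2
  | ex i τ ih =>
    simp only [T6.sub, Tp.inst, Fm.fv, Finset.mem_erase] at hx
    simp only [tl, List.mem_filter, bne_iff_ne]
    exact ⟨ih hx.2, hx.1⟩

lemma all_mem (l : List ℕ) (b : List ℕ) (h : (l.all fun x => b.contains x) = true) :
    ∀ x ∈ l, x ∈ b := by
  intro x hx
  have := List.all_eq_true.1 h x hx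
  simpa using this

lemma chk_D0 : ((tl T6.D0).all fun x => (BL 0).contains x) = true := by decide +kernel
lemma chk_L0 : ((tl T6.L0).all fun x => (BL 1).contains x) = true := by decide +kernel
lemma chk_E0 : ((tl T6.E0).all fun x => (BL 2).contains x) = true := by decide +kernel
lemma chk_D1 : ((tl T6.D1).all fun x => (BL 0).contains x) = true := by decide +kernel
lemma chk_L1 : ((tl T6.L1).all fun x => (BL 1).contains x) = true := by decide +kernel
lemma chk_E1 : ((tl T6.E1).all fun x => (BL 2).contains x) = true := by decide +kernel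
lemma chk_A0 : ((tl T6.A0).all fun x => (BL 3).contains x) = true := by decide +kernel
lemma chk_A1 : ((tl T6.A1).all fun x => (BL 3).contains x) = true := by decide +kernel
lemma chk_P1 : ((tl T6.P1).all fun x => (BL 4).contains x) = true := by decide +kernel
lemma chk_Fin1 : ((tl T6.Fin1).all fun x => ([] : List ℕ).contains x) = true := by decide +kernel

lemma one0 (i : Fin 5) : ∀ x ∈ (Fm.one 0).fv, x ∈ BL i := by
  intro x hx
  simp only [Fm.fv, Finset.mem_singleton] at hx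
  subst hx
  revert i
  decide

lemma bd_h0 (p : ℕ) : Bd (h0 p) := by
  have hb : Bd fun _ => Fm.one 0 := fun i => one0 i
  intro i
  fin_cases i
  · intro x hx
    exact all_mem _ _ chk_D0 x (mem_tl p _ hb T6.D0 x hx)
  · intro x hx
    exact all_mem _ _ chk_L0 x (mem_tl p _ hb T6.L0 x hx)
  · intro x hx
    exact all_mem _ _ chk_E0 x (mem_tl p _ hb T6.E0 x hx)
  · exact one0 3
  · exact one0 4

lemma bd_TL (p : ℕ) (h : Fin 5 → Fm) (hb : Bd h) : Bd (stepH (TL p) h) := by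
  intro i
  fin_cases i
  · intro x hx
    exact all_mem _ _ chk_D1 x (mem_tl p _ hb T6.D1 x hx)
  · intro x hx
    exact all_mem _ _ chk_L1 x (mem_tl p _ hb T6.L1 x hx)
  · intro x hx
    exact all_mem _ _ chk_E1 x (mem_tl p _ hb T6.E1 x hx)
  · exact hb 3
  · exact hb 4

lemma bd_TA0 (h : Fin 5 → Fm) (hb : Bd h) : Bd (stepH TA0 h) := by
  intro i
  fin_cases i
  · exact hb 0
  · exact hb 1
  · exact hb 2
  · intro x hx
    exact all_mem _ _ chk_A0 x (mem_tl 0 _ hb T6.A0 x hx)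
  · intro x hx
    exact all_mem _ _ chk_P1 x (mem_tl 0 _ hb T6.P1 x hx)

lemma bd_TA1 (h : Fin 5 → Fm) (hb : Bd h) : Bd (stepH TA1 h) := by
  intro i
  fin_cases i
  · exact hb 0
  · exact hb 1
  · exact hb 2
  · intro x hx
    exact all_mem _ _ chk_A1 x (mem_tl 0 _ hb T6.A1 x hx)
  · exact hb 4

lemma iter_pres {α : Type} (f : α → α) (P : α → Prop) (h : ∀ a, P a → P (f a)) (n : ℕ) (a : α)
    (ha : P a) : P (f^[n] a) := by
  induction n generalizing a with
  | zero => exact ha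
  | succ n ih => exact ih (f a) (h a ha)

lemma bd_hfin (p m : ℕ) : Bd (hfin p m) :=
  iter_pres _ Bd bd_TA1 _ _ (bd_TA0 _ (iter_pres _ Bd (bd_TL p) _ _ (bd_h0 p)))

theorem t_FV : S_FV := by
  intro p m
  rw [Finset.eq_empty_iff_forall_notMem]
  intro x hx
  have := all_mem _ _ chk_Fin1 x (mem_tl p _ (bd_hfin p m) T6.Fin1 x hx)
  simp at this

/-! ## 64 variables -/

/-- boolean check for formulas -/
def rF : Fm → Bool
  | .eq i j => decide (i < 64) && decide (j < 64)
  | .one i => decide (i < 64)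
  | .add i j k => decide (i < 64) && (decide (j < 64) && decide (k < 64))
  | .mul i j k => decide (i < 64) && (decide (j < 64) && decide (k < 64))
  | .val _ => false
  | .neg φ => rF φ
  | .and φ ψ => rF φ && rF ψ
  | .ex i φ => decide (i < 64) && rF φ

lemma rF_spec (φ : Fm) (h : rF φ = true) : φ.InRing 64 := by
  induction φ with
  | eq i j => simpa [rF, Fm.InRing] using h
  | one i => simpa [rF, Fm.InRing] using h
  | add i j k => simpa [rF, Fm.InRing] using h
  | mul i j k => simpa [rF, Fm.InRing] using h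
  | val i => simp [rF] at h
  | neg φ ih => exact ih h
  | and φ ψ ih1 ih2 =>
    simp only [rF, Bool.and_eq_true] at h
    exact ⟨ih1 h.1, ih2 h.2⟩
  | ex i φ ih =>
    simp only [rF, Bool.and_eq_true, decide_eq_true_eq] at h
    exact ⟨h.1, ih h.2⟩

/-- boolean check for templates -/
def rT : T6 → Bool
  | .hole _ => true
  | .jf => true
  | .atom φ => rF φ
  | .neg τ => rT τ
  | .and τ υ => rT τ && rT υ
  | .ex i τ => decide (i < 64) && rT τ

lemma ring_powF (k : ℕ) : (powF k).InRing 64 := by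
  induction k with
  | zero => exact (by norm_num : (5 : ℕ) < 64)
  | succ k ih =>
    simp only [powF, Fm.InRing]
    exact ⟨by norm_num, ⟨by norm_num, ⟨by norm_num, by norm_num⟩, ih⟩, by norm_num⟩

lemma ring_JF (p : ℕ) : (JF p).InRing 64 := by
  have h := ring_powF p
  simp only [JF, Fm.InRing]
  refine ⟨by norm_num, by norm_num, by norm_num, ⟨by norm_num, by norm_num, by norm_num,
    by norm_num, h⟩, ⟨by norm_num, by norm_num, by norm_num, by norm_num, h⟩, by norm_num,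
    by norm_num⟩

/-- all holes are in the ring language with 64 variables -/
def Rg (h : Fin 5 → Fm) : Prop := ∀ i, (h i).InRing 64

lemma rT_spec (p : ℕ) (h : Fin 5 → Fm) (hh : Rg h) (τ : T6) (ht : rT τ = true) :
    ((τ.sub (JF p)).inst h).InRing 64 := by
  induction τ with
  | hole i => exact hh i
  | jf => exact ring_JF p
  | atom φ => exact rF_spec φ ht
  | neg τ ih => exact ih ht
  | and τ υ ih1 ih2 =>
    simp only [rT, Bool.and_eq_true] at ht
    exact ⟨ih1 ht.1, ih2 ht.2⟩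
  | ex i τ ih =>
    simp only [rT, Bool.and_eq_true, decide_eq_true_eq] at ht
    exact ⟨ht.1, ih ht.2⟩

lemma rg_one : (Fm.one 0).InRing 64 := (by norm_num : (0 : ℕ) < 64)

lemma rg_h0 (p : ℕ) : Rg (h0 p) := by
  have hb : Rg fun _ => Fm.one 0 := fun i => rg_one
  intro i
  fin_cases i
  · exact rT_spec p _ hb T6.D0 (by decide +kernel)
  · exact rT_spec p _ hb T6.L0 (by decide +kernel)
  · exact rT_spec p _ hb T6.E0 (by decide +kernel)
  · exact rg_one
  · exact rg_one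

lemma rg_TL (p : ℕ) (h : Fin 5 → Fm) (hb : Rg h) : Rg (stepH (TL p) h) := by
  intro i
  fin_cases i
  · exact rT_spec p _ hb T6.D1 (by decide +kernel)
  · exact rT_spec p _ hb T6.L1 (by decide +kernel)
  · exact rT_spec p _ hb T6.E1 (by decide +kernel)
  · exact hb 3
  · exact hb 4

lemma rg_TA0 (h : Fin 5 → Fm) (hb : Rg h) : Rg (stepH TA0 h) := by
  intro i
  fin_cases i
  · exact hb 0
  · exact hb 1
  · exact hb 2
  · exact rT_spec 0 _ hb T6.A0 (by decide +kernel)
  · exact rT_spec 0 _ hb T6.P1 (by decide +kernel)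

lemma rg_TA1 (h : Fin 5 → Fm) (hb : Rg h) : Rg (stepH TA1 h) := by
  intro i
  fin_cases i
  · exact hb 0
  · exact hb 1
  · exact hb 2
  · exact rT_spec 0 _ hb T6.A1 (by decide +kernel)
  · exact hb 4

theorem t_RING : S_RING := by
  intro p m
  exact rT_spec p _ (iter_pres _ Rg rg_TA1 _ _ (rg_TA0 _ (iter_pres _ Rg (rg_TL p) _ _ (rg_h0 p))))
    T6.Fin1 (by decide +kernel)

/-! ## Growth -/

/-- the hole `3` occurs in the template -/
def occ : Tp → Bool
  | .hole i => decide (i = 3)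
  | .atom _ => false
  | .neg τ => occ τ
  | .and τ υ => occ τ || occ υ
  | .ex _ τ => occ τ

lemma lt_pair (a b : ℕ) (ha : 0 < a) : b < Nat.pair a b := by
  unfold Nat.pair
  split_ifs with h
  · nlinarith
  · nlinarith

lemma occ_le (h : Fin 5 → Fm) (τ : Tp) (ho : occ τ = true) : (h 3).code ≤ (τ.inst h).code := by
  induction τ with
  | hole i =>
    simp only [occ, decide_eq_true_eq] at ho
    subst ho
    exact le_rfl
  | atom φ => simp [occ] at ho
  | neg τ ih => exact (ih ho).trans (lt_pair 5 _ (by norm_num)).le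
  | and τ υ ih1 ih2 =>
    simp only [occ, Bool.or_eq_true] at ho
    refine le_trans ?_ (lt_pair 6 _ (by norm_num)).le
    rcases ho with ho | ho
    · exact (ih1 ho).trans (Nat.left_le_pair _ _)
    · exact (ih2 ho).trans (Nat.right_le_pair _ _)
  | ex i τ ih =>
    refine le_trans ?_ (lt_pair 7 _ (by norm_num)).le
    exact (ih ho).trans (Nat.right_le_pair _ _)

lemma occ_lt (h : Fin 5 → Fm) (i : ℕ) (τ : Tp) (ho : occ τ = true) :
    (h 3).code < ((Tp.ex i τ).inst h).code := by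
  refine lt_of_le_of_lt ?_ (lt_pair 7 _ (by norm_num))
  exact (occ_le h τ ho).trans (Nat.right_le_pair _ _)

lemma grow_TA1 (h : Fin 5 → Fm) : (h 3).code < (stepH TA1 h 3).code :=
  occ_lt h 10 _ (by decide)

lemma grow_iter (m : ℕ) (h : Fin 5 → Fm) : m ≤ ((stepH TA1)^[m] h 3).code := by
  induction m with
  | zero => exact Nat.zero_le _
  | succ m ih =>
    rw [Function.iterate_succ_apply']
    have := grow_TA1 ((stepH TA1)^[m] h)
    omega

theorem t_GROW : S_GROW := by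
  intro p m
  refine (grow_iter m _).trans (occ_le (hfin p m) (Tp.Fin1 p) ?_)
  rfl

end Pool.Agent.R621.EL
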