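import Pool.Agent.R621.EL.Ev
import Pool.Agent.R621.EL.EvX
import Pool.Agent.R621.EL.Enum
import Pool.Agent.R621.EL.Sem0
import Pool.Agent.R621.EL.Sem1
import Pool.Agent.R621.EL.SemA
import Pool.Agent.R621.EL.SEMB
import Pool.Agent.R621.EL.Syn
import Pool.Agent.Y151.EL.Uniq
import Pool.Agent.Y154.EL.Evaln
import Pool.Agent.Y555.EL.Code
import Pool.Agent.Y638.EL.Rec
import Pool.Agent.Y972.EL.UNI

/-! # The truth value of the sentences -/

set_option autoImplicit false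

namespace Pool.Agent.R621.EL

open Pool.Agent.Y924.EL Function

theorem one_le_tower (m : ℕ) : 1 ≤ tower m 2 := by
  have := Pool.Agent.Y151.EL.tower_ge m
  omega

/-- the levels are good -/
theorem lev_good {K : Type} (J : K → K → K) (z0 z1 : K) (hJ : Inj2 J) (hz : z0 ≠ z1) (n : ℕ) :
    Good (levN J z0 z1 n) (tower n 2) := by
  induction n with
  | zero => exact t_LEV0 K J z0 z1 hJ hz
  | succ n ih =>
    refine ⟨t_ENUM K J z0 z1 _ _ hz ih, ?_, ?_, ?_⟩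
    · intro s i v v' _ h h'
      exact next_func hJ hz (one_le_tower n) ih s i v v' h h'
    · exact next_comp (one_le_tower n) ih
    · exact t_EVX K J z0 z1 _ _ hJ hz (one_le_tower n) ih

theorem rep_lev {K : Type} [CommRing K] (O : Set K) (p : ℕ) (t : K) (m : ℕ) :
    Rep O t ((stepH (TL p))^[m] (h0 p)) (levN (JJ p t) 0 1 m) := by
  induction m with
  | zero => exact t_SEM0 K O p t
  | succ m ih =>
    rw [Function.iterate_succ_apply']
    exact t_SEM1 K O p t _ _ ih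

theorem rep_fin {K : Type} [CommRing K] (O : Set K) (p : ℕ) (t : K) (m k : ℕ) :
    Rep O t ((stepH TA1)^[k] (stepH TA0 ((stepH (TL p))^[m] (h0 p)))) (levN (JJ p t) 0 1 m) ∧
    Rep2 O t ((stepH TA1)^[k] (stepH TA0 ((stepH (TL p))^[m] (h0 p))))
      (levN (JJ p t) 0 1 m) k := by
  induction k with
  | zero => exact t_SEMA0 K O t _ _ (rep_lev O p t m)
  | succ k ih =>
    rw [Function.iterate_succ_apply']
    exact t_SEMA1 K O t _ _ k ih.1 ih.2

theorem sat_sent {K : Type} [CommRing K] (O : Set K) (p m : ℕ) (v : ℕ → K) :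
    Sat O (sent p m) v ↔ ∃ t : K, Inj2 (JJ p t) ∧ ∃ n c r y, Num (levN (JJ p t) 0 1 m) m n ∧
      PairR (levN (JJ p t) 0 1 m) c r n ∧ Num (levN (JJ p t) 0 1 m) 1 y ∧
      Uni (levN (JJ p t) 0 1 m) 1 c n y := by
  show (∃ a : K, Sat O ((Tp.InjT p).inst (hfin p m)) (update v 3 a) ∧
    Sat O (Tp.Body.inst (hfin p m)) (update v 3 a)) ↔ _
  refine exists_congr fun t => ?_
  rw [t_SEMI K O p t (hfin p m) _ (update_self _ _ _),
    t_SEMB K O t (hfin p m) _ m (rep_fin O p t m m).1 (rep_fin O p t m m).2 _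
      (update_self _ _ _)]

/-- there is a record below `tower m 2` that the program coded in `m` has the output 1 on `m` -/
def Acc (m : ℕ) : Prop :=
  ∃ W : Set ℕ, Closed W ∧ tr m.unpair.1 m 1 ∈ W ∧ ∀ t ∈ W, t < tower m 2

theorem body_iff {K : Type} [CommRing K] (p : ℕ) (t : K) (hJ : Inj2 (JJ p t))
    (h01 : (0 : K) ≠ 1) (m : ℕ) :
    (∃ n c r y, Num (levN (JJ p t) 0 1 m) m n ∧
      PairR (levN (JJ p t) 0 1 m) c r n ∧ Num (levN (JJ p t) 0 1 m) 1 y ∧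
      Uni (levN (JJ p t) 0 1 m) 1 c n y) ↔ Acc m := by
  have hG := lev_good (JJ p t) 0 1 hJ h01 m
  have hN := Pool.Agent.Y151.EL.tower_ge m
  obtain ⟨e, he⟩ := hG.enum
  have hm : m < tower m 2 := by omega
  have h1 : 1 < tower m 2 := by omega
  have hU := fun c (hc : c < tower m 2) => Pool.Agent.Y972.EL.t_UNI Pool.Agent.Y972.EL.t_PAIR K _ _ e
    (0 : K) 1 hG he h01 c m 1 hc hm h1
  have hc : m.unpair.1 < tower m 2 := lt_of_le_of_lt (Nat.unpair_left_le m) hm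
  constructor
  · rintro ⟨n, c, r, y, hn, hp, hy, hu⟩
    obtain ⟨_, rfl⟩ := (Pool.Agent.Y972.EL.num_iff he _ _).1 hn
    obtain ⟨_, rfl⟩ := (Pool.Agent.Y972.EL.num_iff he _ _).1 hy
    obtain ⟨i, j, hij, rfl, rfl, h2⟩ := (Pool.Agent.Y972.EL.t_PAIR K _ _ e hG he _ _ _).1 hp
    have h3 := Pool.Agent.Y972.EL.enum_inj he hm hij h2
    have h4 : m.unpair.1 = i := by rw [h3, Nat.unpair_pair]
    rw [← h4] at hu
    exact (hU _ hc).1 hu
  · intro hA
    refine ⟨e m, e m.unpair.1, e m.unpair.2, e 1, (Pool.Agent.Y972.EL.num_iff he _ _).2 ⟨hm, rfl⟩,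
      (Pool.Agent.Y972.EL.t_PAIR K _ _ e hG he _ _ _).2 ⟨m.unpair.1, m.unpair.2, ?_, rfl, rfl, ?_⟩,
      (Pool.Agent.Y972.EL.num_iff he _ _).2 ⟨h1, rfl⟩, (hU _ hc).2 hA⟩
    · rw [Nat.pair_unpair]; exact hm
    · rw [Nat.pair_unpair]

/-- a commutative ring in which `(x, y) ↦ x ^ p + t y ^ p` is injective for some `t` -/
def Pairing (p : ℕ) (K : Type) [CommRing K] : Prop :=
  (0 : K) ≠ 1 ∧ ∃ t : K, ∀ x y x' y' : K, x ^ p + t * y ^ p = x' ^ p + t * y' ^ p →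
    x = x' ∧ y = y'

theorem sat_acc {K : Type} [CommRing K] (O : Set K) (p m : ℕ) (v : ℕ → K) (hK : Pairing p K) :
    Sat O (sent p m) v ↔ Acc m := by
  rw [sat_sent]
  constructor
  · rintro ⟨t, hJ, hb⟩
    exact (body_iff p t hJ hK.1 m).1 hb
  · intro hA
    obtain ⟨t, ht⟩ := hK.2
    exact ⟨t, ht, (body_iff p t ht hK.1 m).2 hA⟩

/-- towers, for infinitely many numbers -/
theorem tow (c k j : ℕ) (hj : 2 * k + 2 ≤ j) :
    tower k (Nat.pair c j) ≤ tower (Nat.pair c j) 2 := by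
  have hn : 2 * k + 2 ≤ Nat.pair c j := hj.trans (Nat.right_le_pair _ _)
  obtain ⟨n, hn'⟩ : ∃ n, n = Nat.pair c j := ⟨_, rfl⟩
  rw [← hn'] at hn ⊢
  obtain ⟨m, rfl⟩ : ∃ m, n = k + m := ⟨n - k, by omega⟩
  conv_rhs => rw [Pool.Agent.Y151.EL.tower_add]
  apply Pool.Agent.Y151.EL.tower_mono
  have := Pool.Agent.Y151.EL.tower_ge m
  omega

/-- every elementary function errs on infinitely many of the sentences -/
theorem errs (p : ℕ) (f : ℕ → ℕ) (hf : E3 f) (B : ℕ) :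
    ∃ m : ℕ, B ≤ m ∧ (f (sent p m).code = 0 ↔ Acc m) := by
  have hg : E3 fun n => if f (codeOf p n) = 0 then 1 else 0 :=
    t_SG (fun n => f (codeOf p n)) (E3.comp hf (t_CODE p))
  obtain ⟨c, k, hck⟩ := Pool.Agent.Y638.EL.t_REC _ hg
  obtain ⟨j, hj1, hj2⟩ : ∃ j, 2 * k + 2 ≤ j ∧ B ≤ j := ⟨max (2 * k + 2) B, le_max_left _ _,
    le_max_right _ _⟩
  obtain ⟨m, hm⟩ : ∃ m, m = Nat.pair c j := ⟨_, rfl⟩
  have hB : B ≤ m := by rw [hm]; exact hj2.trans (Nat.right_le_pair _ _)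
  have hc : m.unpair.1 = c := by rw [hm, Nat.unpair_pair]
  have ht : tower k m ≤ tower m 2 := by rw [hm]; exact tow c k j hj1
  refine ⟨m, hB, ?_⟩
  rw [t_CODEEQ p m]
  obtain ⟨W, hW, hW1, hW2⟩ := hck m
  constructor
  · intro h0
    refine ⟨W, hW, ?_, fun t htW => lt_of_lt_of_le (hW2 t htW) ht⟩
    simp only [if_pos h0] at hW1
    rw [hc]
    exact hW1
  · rintro ⟨W', hW', h1, _⟩
    rw [hc] at h1
    have h2 := Pool.Agent.Y151.EL.t_UNIQ W W' c m _ _ hW hW' hW1 h1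
    by_contra h0
    simp only [if_neg h0] at h2
    exact absurd h2 (by norm_num)

/-- elementary inseparability: every elementary function takes the value `0` at a sentence which is
true in all these rings, or another value at a sentence which is false in all these rings -/
theorem insep (p : ℕ) (f : ℕ → ℕ) (hf : E3 f) (B : ℕ) :
    ∃ ψ : Fm, ψ.fv = ∅ ∧ ψ.InRing 64 ∧ B ≤ ψ.code ∧
      ((f ψ.code = 0 ∧ ∀ (K : Type) [CommRing K], Pairing p K → ∀ (O : Set K) (v : ℕ → K),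
          Sat O ψ v) ∨
        (f ψ.code ≠ 0 ∧ ∀ (K : Type) [CommRing K], Pairing p K → ∀ (O : Set K) (v : ℕ → K),
          ¬ Sat O ψ v)) := by
  obtain ⟨m, hB, hm⟩ := errs p f hf B
  refine ⟨sent p m, t_FV p m, t_RING p m, hB.trans (t_GROW p m), ?_⟩
  by_cases h0 : f (sent p m).code = 0
  · left
    exact ⟨h0, fun K _ hK O v => (sat_acc O p m v hK).2 (hm.1 h0)⟩
  · right
    exact ⟨h0, fun K _ hK O v hs => h0 (hm.2 ((sat_acc O p m v hK).1 hs))⟩

/-- no program is correct on these sentences within an elementary bound -/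
theorem insep_prog (p : ℕ) (c : Nat.Partrec.Code) (b : ℕ → ℕ) (hb : E3 b) (B : ℕ)
    (C : (K : Type) → [CommRing K] → Prop) (hC : ∀ (K : Type) [CommRing K], C K → Pairing p K)
    (hne : ∃ (K : Type) (_ : CommRing K), C K)
    (hc : ∀ ψ : Fm, ψ.fv = ∅ → ψ.InRing 64 → ∃ y ∈ c.eval ψ.code,
      (y ≠ 0 ↔ ∀ (K : Type) [CommRing K], C K → ∀ (O : Set K) (v : ℕ → K), Sat O ψ v)) :
    ∃ ψ : Fm, ψ.fv = ∅ ∧ ψ.InRing 64 ∧ B ≤ ψ.code ∧
      Nat.Partrec.Code.evaln (b ψ.code) c ψ.code = none := by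
  have hf : E3 fun n => evn c (Nat.pair (b n) n) - 1 :=
    Pool.Agent.Y154.EL.e_pred (E3.comp (Pool.Agent.Y154.EL.t_EVALN c)
      (E3.pair hb Pool.Agent.Y154.EL.e_id))
  obtain ⟨ψ, h1, h2, h3, h4⟩ := insep p _ hf B
  refine ⟨ψ, h1, h2, h3, ?_⟩
  rcases h5 : Nat.Partrec.Code.evaln (b ψ.code) c ψ.code with _ | z
  · rfl
  · exfalso
    have hev : evn c (Nat.pair (b ψ.code) ψ.code) - 1 = z := by
      rw [Pool.Agent.Y154.EL.evn_pr, h5]
      rfl
    rw [hev] at h4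
    obtain ⟨y, hy, hy2⟩ := hc ψ h1 h2
    have hz : z ∈ c.eval ψ.code := Nat.Partrec.Code.evaln_sound h5
    have hyz : y = z := Part.mem_unique hy hz
    rw [hyz] at hy2
    rcases h4 with ⟨h6, h7⟩ | ⟨h6, h7⟩
    · exact hy2.2 (fun K _ hK O v => h7 K (hC K hK) O v) h6
    · obtain ⟨K, _, hK⟩ := hne
      exact h7 K (hC K hK) ∅ (fun _ => 0) (hy2.1 h6 K hK ∅ (fun _ => 0))

/-- imperfect fields, and domains whose field of fractions is imperfect -/
theorem pairing_of_field (p : ℕ) [Fact p.Prime] (K : Type) [Field K] [CharP K p]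
    (h : ∃ t : K, ∀ u : K, u ^ p ≠ t) : Pairing p K := by
  obtain ⟨t, ht⟩ := h
  exact ⟨zero_ne_one, t, t_INJ K p t ht⟩

end Pool.Agent.R621.EL
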