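import Pool.Agent.Y924.EL.Sem

/-!
# Meaning of the small templates (project EL, MP_db9079_lc)
-/

set_option autoImplicit false

namespace Pool.Agent.R621.EL

open Pool.Agent.Y924.EL Function

section

variable {K : Type} [CommRing K] {O : Set K} {t : K} {h : Fin 5 → Fm} {M : Lev K} {v : ℕ → K}

lemma s_cD (hR : Rep O t h M) (hv : v 3 = t) {a : ℕ} (ha : 10 ≤ a) :
    Sat O ((Tp.cD a).inst h) v ↔ M.D (v a) := by
  rw [Tp.cD, sat_call1 _ _ _ _ (by omega), sat_hole,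
    (hR _ (by rw [update_of_ne (by norm_num)]; exact hv)).1, update_self]

lemma s_cL (hR : Rep O t h M) (hv : v 3 = t) {a b : ℕ} (ha : 10 ≤ a) (hb : 10 ≤ b) :
    Sat O ((Tp.cL a b).inst h) v ↔ M.L (v a) (v b) := by
  rw [Tp.cL, sat_call2 _ _ _ _ (by omega) (by omega) (by omega), sat_hole,
    (hR _ (by rw [update_of_ne (by norm_num), update_of_ne (by norm_num)]; exact hv)).2.1,
    update_self, update_of_ne (by norm_num), update_self]

lemma s_cE (hR : Rep O t h M) (hv : v 3 = t) {a b c : ℕ} (ha : 10 ≤ a) (hb : 10 ≤ b)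
    (hc : 10 ≤ c) :
    Sat O ((Tp.cE a b c).inst h) v ↔ M.E (v a) (v b) (v c) := by
  rw [Tp.cE, sat_call3 _ _ _ _ (by omega) (by omega) (by omega) (by omega) (by omega)
    (by omega), sat_hole,
    (hR _ (by rw [update_of_ne (by norm_num), update_of_ne (by norm_num),
      update_of_ne (by norm_num)]; exact hv)).2.2]
  simp

lemma s_cJ (p : ℕ) (hv : v 3 = t) {a b c : ℕ} (ha : 10 ≤ a) (hb : 10 ≤ b) (hc : 10 ≤ c) :
    Sat O ((Tp.cJ p a b c).inst h) v ↔ JJ p t (v a) (v b) = v c := by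
  rw [Tp.cJ, sat_call3 _ _ _ _ (by omega) (by omega) (by omega) (by omega) (by omega)
    (by omega), sat_atom, sat_JF]
  simp [hv]

lemma s_cE0 (hR : Rep O t h M) (hv : v 3 = t) {a b : ℕ} (ha : 10 ≤ a) (hb : 10 ≤ b)
    (ha' : a ≠ 29) (hb' : b ≠ 29) :
    Sat O ((Tp.cE0 a b).inst h) v ↔ M.E (v a) (v b) 0 := by
  have h3 : ∀ x, update v 29 x 3 = t := fun x => by rw [update_of_ne (by norm_num)]; exact hv
  simp only [Tp.cE0, sat_ex, sat_and, sat_isZ, update_self,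
    s_cE hR (h3 _) ha hb (show 10 ≤ 29 by norm_num), update_of_ne ha', update_of_ne hb']
  constructor
  · rintro ⟨x, rfl, hx⟩
    exact hx
  · intro hx
    exact ⟨_, rfl, hx⟩

lemma s_cE1 (hR : Rep O t h M) (hv : v 3 = t) {a b : ℕ} (ha : 10 ≤ a) (hb : 10 ≤ b)
    (ha' : a ≠ 29) (hb' : b ≠ 29) :
    Sat O ((Tp.cE1 a b).inst h) v ↔ M.E (v a) (v b) 1 := by
  have h3 : ∀ x, update v 29 x 3 = t := fun x => by rw [update_of_ne (by norm_num)]; exact hv
  simp only [Tp.cE1, sat_ex, sat_and, sat_isO, update_self,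
    s_cE hR (h3 _) ha hb (show 10 ≤ 29 by norm_num), update_of_ne ha', update_of_ne hb']
  constructor
  · rintro ⟨x, rfl, hx⟩
    exact hx
  · intro hx
    exact ⟨_, rfl, hx⟩

lemma s_cFst (hR : Rep O t h M) (hv : v 3 = t) {a : ℕ} (ha : 10 ≤ a) (ha' : a ≠ 18) :
    Sat O ((Tp.cFst a).inst h) v ↔ Fst M (v a) := by
  have h3 : ∀ x, update v 18 x 3 = t := fun x => by rw [update_of_ne (by norm_num)]; exact hv
  simp only [Tp.cFst, sat_ex, sat_and, sat_neg, s_cD hR hv ha,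
    s_cD hR (h3 _) (show 10 ≤ 18 by norm_num), s_cL hR (h3 _) (show 10 ≤ 18 by norm_num) ha,
    update_self, update_of_ne ha', Fst]

lemma s_cLst (hR : Rep O t h M) (hv : v 3 = t) {a : ℕ} (ha : 10 ≤ a) (ha' : a ≠ 18) :
    Sat O ((Tp.cLst a).inst h) v ↔ Lst M (v a) := by
  have h3 : ∀ x, update v 18 x 3 = t := fun x => by rw [update_of_ne (by norm_num)]; exact hv
  simp only [Tp.cLst, sat_ex, sat_and, sat_neg, s_cD hR hv ha,
    s_cD hR (h3 _) (show 10 ≤ 18 by norm_num), s_cL hR (h3 _) ha (show 10 ≤ 18 by norm_num),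
    update_self, update_of_ne ha', Lst]

lemma s_cSuc (hR : Rep O t h M) (hv : v 3 = t) {a b : ℕ} (ha : 10 ≤ a) (ha' : a ≠ 18)
    (hb : 10 ≤ b) (hb' : b ≠ 18) :
    Sat O ((Tp.cSuc a b).inst h) v ↔ Suc M (v a) (v b) := by
  have h3 : ∀ x, update v 18 x 3 = t := fun x => by rw [update_of_ne (by norm_num)]; exact hv
  simp only [Tp.cSuc, sat_ex, sat_and, sat_neg, s_cD hR hv ha, s_cD hR hv hb,
    s_cL hR hv ha hb,
    s_cD hR (h3 _) (show 10 ≤ 18 by norm_num), s_cL hR (h3 _) ha (show 10 ≤ 18 by norm_num),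
    s_cL hR (h3 _) (show 10 ≤ 18 by norm_num) hb,
    update_self, update_of_ne ha', update_of_ne hb', Suc]

lemma s_cCh (hR : Rep O t h M) (p : ℕ) (hv : v 3 = t) {a i x y : ℕ} (ha : 10 ≤ a)
    (ha' : a ≠ 19) (ha'' : a ≠ 29) (hi : 10 ≤ i) (hi' : i ≠ 19) (hi'' : i ≠ 29)
    (hx : 10 ≤ x) (hx' : x ≠ 19) (hy : 10 ≤ y) (hy' : y ≠ 19) :
    Sat O ((Tp.cCh p a i x y).inst h) v ↔
      Ch M (JJ p t) 0 1 (v a) (v i) (v x) (v y) := by
  have h3 : ∀ x, update v 19 x 3 = t := fun x => by rw [update_of_ne (by norm_num)]; exact hv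
  simp only [Tp.cCh, sat_ex, sat_and, sat_or, s_cE0 hR (h3 _) ha hi ha'' hi'',
    s_cE1 hR (h3 _) ha hi ha'' hi'', s_cJ p (h3 _) hy (show 10 ≤ 19 by norm_num) hx,
    s_cJ p (h3 _) (show 10 ≤ 19 by norm_num) hy hx,
    update_self, update_of_ne ha', update_of_ne hi', update_of_ne hx', update_of_ne hy', Ch]

end

end Pool.Agent.R621.EL
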