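import Pool.Agent.R621.EL.Lin

/-! # Linear formulas, and the fields -/

set_option autoImplicit false

namespace Pool.Agent.R621.EL

open Pool.Agent.Y924.EL Function

theorem code_sent (p m : ℕ) : (sent p m).code = Nat.pair 7 (Nat.pair 3 (Nat.pair 6
    (Nat.pair ((Tp.InjT p).inst (hfin p m)).code (bodyF p m).code))) := rfl

theorem unp_sent (p m : ℕ) :
    (sent p m).code.unpair.2.unpair.2.unpair.2.unpair.2 = (bodyF p m).code := by
  rw [code_sent]
  simp only [Nat.unpair_pair]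

theorem fv_body (p m : ℕ) : (bodyF p m).fv ⊆ {3} := by
  have h := t_FV p m
  have h1 : (((Tp.InjT p).inst (hfin p m)).fv ∪ (bodyF p m).fv).erase 3 = ∅ := h
  intro i hi
  rw [Finset.mem_singleton]
  by_contra h3
  have h2 : i ∈ (((Tp.InjT p).inst (hfin p m)).fv ∪ (bodyF p m).fv).erase 3 :=
    Finset.mem_erase.2 ⟨h3, Finset.mem_union_right _ hi⟩
  rw [h1] at h2
  exact absurd h2 (Finset.notMem_empty i)

theorem ring_body (p m : ℕ) : (bodyF p m).InRing 64 := (t_RING p m).2.2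

theorem sat_body {K : Type} [CommRing K] (O : Set K) (p m : ℕ) (v : ℕ → K) (h01 : (0 : K) ≠ 1)
    (hJ : Inj2 (JJ p (v 3))) : Sat O (bodyF p m) v ↔ Acc m := by
  rw [bodyF, t_SEMB K O (v 3) (hfin p m) _ m (rep_fin O p (v 3) m m).1 (rep_fin O p (v 3) m m).2 v
    rfl]
  exact body_iff p (v 3) hJ h01 m

/-- the codes of the formulas are unbounded -/
theorem grow_body (p B : ℕ) (f : ℕ → ℕ) (hf : E3 f) :
    ∃ m : ℕ, B ≤ (bodyF p m).code ∧ (f (bodyF p m).code = 0 ↔ Acc m) := by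
  have hf' : E3 fun n => f n.unpair.2.unpair.2.unpair.2.unpair.2 :=
    E3.comp hf (E3.comp E3.right (E3.comp E3.right (E3.comp E3.right E3.right)))
  have hI : ∀ m, ((Tp.InjT p).inst (hfin p m)).code = ((Tp.InjT p).inst (h0 p)).code := fun _ => rfl
  obtain ⟨m, hm, h⟩ := errs p _ hf' (Nat.pair 7 (Nat.pair 3 (Nat.pair 6
    (Nat.pair ((Tp.InjT p).inst (h0 p)).code B))) + 1)
  refine ⟨m, ?_, ?_⟩
  · by_contra hlt
    push Not at hlt
    have h1 := t_GROW p m
    rw [code_sent, hI m] at h1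
    have h2 := Nat.pair_lt_pair_right ((Tp.InjT p).inst (h0 p)).code hlt
    have h3 := Nat.pair_lt_pair_right 6 h2
    have h4 := Nat.pair_lt_pair_right 3 h3
    have h5 := Nat.pair_lt_pair_right 7 h4
    omega
  · rw [← h, unp_sent]

/-- elementary inseparability for linear formulas -/
theorem insep_lin (p : ℕ) (f : ℕ → ℕ) (hf : E3 f) (B : ℕ) :
    ∃ ψ : Fm, Lin p ψ ∧ ψ.fv ⊆ {3} ∧ ψ.InRing 64 ∧ B ≤ ψ.code ∧
      ((f ψ.code = 0 ∧ ∀ (K : Type) [CommRing K], (0 : K) ≠ 1 → ∀ (O : Set K) (v : ℕ → K),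
          Inj2 (JJ p (v 3)) → Sat O ψ v) ∨
        (f ψ.code ≠ 0 ∧ ∀ (K : Type) [CommRing K], (0 : K) ≠ 1 → ∀ (O : Set K) (v : ℕ → K),
          Inj2 (JJ p (v 3)) → ¬ Sat O ψ v)) := by
  obtain ⟨m, hB, hm⟩ := grow_body p B f hf
  refine ⟨bodyF p m, lin_body p m, fv_body p m, ring_body p m, hB, ?_⟩
  by_cases h0 : f (bodyF p m).code = 0
  · left
    exact ⟨h0, fun K _ h01 O v hJ => (sat_body O p m v h01 hJ).2 (hm.1 h0)⟩
  · right
    exact ⟨h0, fun K _ h01 O v hJ hs => h0 (hm.2 ((sat_body O p m v h01 hJ).1 hs))⟩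

/-- `t` is not a `p`-th power in `F_p((t))` -/
theorem t_not_pow (p : ℕ) [Fact p.Prime] (u : LaurentSeries (ZMod p)) :
    u ^ p ≠ HahnSeries.single (1 : ℤ) (1 : ZMod p) := by
  intro h
  have h1 := congrArg HahnSeries.order h
  rw [HahnSeries.order_pow, HahnSeries.order_single one_ne_zero, nsmul_eq_mul] at h1
  have hp : p.Prime := Fact.out
  have h2 : (p : ℤ) ∣ 1 := ⟨_, h1.symm⟩
  have h3 : p ∣ 1 := by exact_mod_cast h2
  exact hp.one_lt.ne' (Nat.dvd_one.1 h3)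

instance charP_ls (p : ℕ) [Fact p.Prime] : CharP (LaurentSeries (ZMod p)) p :=
  charP_of_injective_algebraMap (algebraMap (ZMod p) (LaurentSeries (ZMod p))).injective p

theorem inj_ls (p : ℕ) [Fact p.Prime] :
    Inj2 (JJ p (HahnSeries.single (1 : ℤ) (1 : ZMod p) : LaurentSeries (ZMod p))) :=
  t_INJ _ p _ (t_not_pow p)

theorem pairing_ls (p : ℕ) [Fact p.Prime] : Pairing p (LaurentSeries (ZMod p)) :=
  ⟨zero_ne_one, _, inj_ls p⟩

theorem pairing_ps (p : ℕ) [Fact p.Prime] : Pairing p (PowerSeries (ZMod p)) := by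
  refine ⟨zero_ne_one, PowerSeries.X, fun x y x' y' h => ?_⟩
  have hinj : Function.Injective (algebraMap (PowerSeries (ZMod p)) (LaurentSeries (ZMod p))) :=
    IsFractionRing.injective _ _
  have hX : algebraMap (PowerSeries (ZMod p)) (LaurentSeries (ZMod p)) PowerSeries.X =
      HahnSeries.single (1 : ℤ) (1 : ZMod p) := by
    simp
  have h1 := congrArg (algebraMap (PowerSeries (ZMod p)) (LaurentSeries (ZMod p))) h
  rw [map_add, map_mul, map_pow, map_pow, map_add, map_mul, map_pow, map_pow, hX] at h1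
  obtain ⟨h2, h3⟩ := inj_ls p _ _ _ _ h1
  exact ⟨hinj h2, hinj h3⟩

end Pool.Agent.R621.EL
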